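import Pool.Agent.TH355.FS.PD

set_option autoImplicit false
open Finset

namespace Pool.Agent.TH355.FS

open Classical in
/-- No flag complex has face numbers `1, 12, 33, 1`. -/
theorem no_flag_complex {m : ℕ} (Γ : Finset (Finset (Fin m)))
    (hdown : ∀ σ ∈ Γ, ∀ τ : Finset (Fin m), τ ⊆ σ → τ ∈ Γ)
    (hflag : ∀ s : Finset (Fin m), (∀ x ∈ s, ∀ y ∈ s, ({x, y} : Finset (Fin m)) ∈ Γ) → s ∈ Γ)
    (h1 : (Γ.filter fun σ => σ.card = 1).card = 12)
    (h2 : (Γ.filter fun σ => σ.card = 2).card = 33)
    (h3 : (Γ.filter fun σ => σ.card = 3).card = 1) : False := by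
  let P : Fin m → Prop := fun v => ({v} : Finset (Fin m)) ∈ Γ
  have hP : ∀ σ ∈ Γ, ∀ v ∈ σ, P v := by
    intro σ hσ v hv
    exact hdown σ hσ {v} (by simpa using hv)
  let G : SimpleGraph {v // P v} :=
    { Adj := fun a b => a ≠ b ∧ ({a.1, b.1} : Finset (Fin m)) ∈ Γ
      symm := ⟨fun a b h => ⟨h.1.symm, by rw [Finset.pair_comm]; exact h.2⟩⟩
      loopless := ⟨fun a h => h.1 rfl⟩ }
  obtain ⟨T0, hT0⟩ := Finset.card_eq_one.1 h3
  have hT0m : T0 ∈ Γ ∧ T0.card = 3 := by
    have : T0 ∈ Γ.filter fun σ => σ.card = 3 := by rw [hT0]; simp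
    simpa using this
  have hmem : ∀ (σ : Finset (Fin m)) (a : {v // P v}), a ∈ σ.subtype P ↔ a.1 ∈ σ := by
    intro σ a
    rw [Finset.mem_subtype]
  have hcard : ∀ σ ∈ Γ, (σ.subtype P).card = σ.card := by
    intro σ hσ
    rw [Finset.card_subtype, Finset.filter_true_of_mem]
    exact fun v hv => hP σ hσ v hv
  have hres := one_triangle G (T0.subtype P) (by rw [hcard T0 hT0m.1, hT0m.2])
    (by
      intro a ha b hb hab
      refine ⟨hab, hdown T0 hT0m.1 _ ?_⟩
      rw [hmem] at ha hb
      intro x hx
      rw [Finset.mem_insert, Finset.mem_singleton] at hx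
      rcases hx with rfl | rfl
      · exact ha
      · exact hb)
    (by
      intro a b c hab hac hbc
      have hs : ({a.1, b.1, c.1} : Finset (Fin m)) ∈ Γ := by
        apply hflag
        have haa : ({a.1, a.1} : Finset (Fin m)) ∈ Γ := by simpa using a.2
        have hbb : ({b.1, b.1} : Finset (Fin m)) ∈ Γ := by simpa using b.2
        have hcc : ({c.1, c.1} : Finset (Fin m)) ∈ Γ := by simpa using c.2
        intro x hx y hy
        simp only [Finset.mem_insert, Finset.mem_singleton] at hx hy
        rcases hx with rfl | rfl | rfl <;> rcases hy with rfl | rfl | rfl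
        · exact haa
        · exact hab.2
        · exact hac.2
        · exact hab.symm.2
        · exact hbb
        · exact hbc.2
        · exact hac.symm.2
        · exact hbc.symm.2
        · exact hcc
      have hc3 : ({a.1, b.1, c.1} : Finset (Fin m)).card = 3 := by
        rw [Finset.card_eq_three]
        exact ⟨a.1, b.1, c.1, fun h => hab.1 (Subtype.ext h), fun h => hac.1 (Subtype.ext h),
          fun h => hbc.1 (Subtype.ext h), rfl⟩
      have hT : ({a.1, b.1, c.1} : Finset (Fin m)) = T0 := by
        have : ({a.1, b.1, c.1} : Finset (Fin m)) ∈ Γ.filter fun σ => σ.card = 3 := by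
          rw [Finset.mem_filter]; exact ⟨hs, hc3⟩
        rw [hT0] at this
        simpa using this
      ext v
      rw [hmem, ← hT]
      simp only [Finset.mem_insert, Finset.mem_singleton, Subtype.ext_iff])
    ((Γ.filter fun σ => σ.card = 2).image fun σ => σ.subtype P)
    (by
      intro s hs
      rw [Finset.mem_image] at hs
      obtain ⟨σ, hσ, rfl⟩ := hs
      rw [Finset.mem_filter] at hσ
      obtain ⟨x, y, hxy, he⟩ := Finset.card_eq_two.1 hσ.2
      have hx : P x := hP σ hσ.1 x (by rw [he]; simp)
      have hy : P y := hP σ hσ.1 y (by rw [he]; simp)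
      refine ⟨⟨x, hx⟩, ⟨y, hy⟩, ⟨fun h => hxy (congrArg Subtype.val h), ?_⟩, ?_⟩
      · show ({x, y} : Finset (Fin m)) ∈ Γ
        rw [← he]; exact hσ.1
      · ext v
        rw [hmem, he]
        simp only [Finset.mem_insert, Finset.mem_singleton, Subtype.ext_iff])
    (by
      rw [Fintype.card_subtype, ← h1]
      have he : (Γ.filter fun σ => σ.card = 1) =
          (Finset.univ.filter fun v => P v).image (fun v => ({v} : Finset (Fin m))) := by
        ext σ
        rw [Finset.mem_filter, Finset.mem_image]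
        constructor
        · rintro ⟨ha, hb⟩
          obtain ⟨v, rfl⟩ := Finset.card_eq_one.1 hb
          exact ⟨v, by rw [Finset.mem_filter]; exact ⟨Finset.mem_univ _, ha⟩, rfl⟩
        · rintro ⟨v, hv, rfl⟩
          rw [Finset.mem_filter] at hv
          exact ⟨hv.2, Finset.card_singleton v⟩
      rw [he, Finset.card_image_of_injective _ Finset.singleton_injective])
  rw [Finset.card_image_of_injOn, h2] at hres
  · omega
  · intro σ hσ τ hτ hst
    have hσ' := Finset.mem_filter.1 (by exact_mod_cast hσ : σ ∈ Γ.filter fun σ => σ.card = 2)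
    have hτ' := Finset.mem_filter.1 (by exact_mod_cast hτ : τ ∈ Γ.filter fun σ => σ.card = 2)
    ext v
    constructor
    · intro hv
      have : (⟨v, hP σ hσ'.1 v hv⟩ : {v // P v}) ∈ σ.subtype P := by rw [hmem]; exact hv
      have hst' : σ.subtype P = τ.subtype P := hst
      rw [hst', hmem] at this
      exact this
    · intro hv
      have : (⟨v, hP τ hτ'.1 v hv⟩ : {v // P v}) ∈ τ.subtype P := by rw [hmem]; exact hv
      have hst' : σ.subtype P = τ.subtype P := hst
      rw [← hst', hmem] at this
      exact this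

end Pool.Agent.TH355.FS
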