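import Mathlib

set_option autoImplicit false
open Finset

namespace Pool.Agent.TH355.FS

/-- Mantel's theorem in terms of ordered pairs. -/
theorem mantel_darts {V : Type*} [DecidableEq V] (G : SimpleGraph V) [DecidableRel G.Adj]
    (U : Finset V) (hfree : ∀ a ∈ U, ∀ b ∈ U, ∀ c ∈ U, G.Adj a b → G.Adj a c → ¬ G.Adj b c) :
    2 * (∑ a ∈ U, (U.filter fun b => G.Adj a b).card) ≤ U.card ^ 2 := by
  set d : V → ℕ := fun a => (U.filter fun b => G.Adj a b).card with hd
  set D := ∑ a ∈ U, d a with hD
  have h1 : ∀ a ∈ U, ∀ b ∈ U.filter (fun b => G.Adj a b), d a + d b ≤ U.card := by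
    intro a ha b hb
    rw [Finset.mem_filter] at hb
    rw [hd]
    simp only
    rw [← Finset.card_union_of_disjoint]
    · apply Finset.card_le_card
      intro x hx
      simp only [Finset.mem_union, Finset.mem_filter] at hx
      tauto
    · rw [Finset.disjoint_left]
      intro c hc hc'
      rw [Finset.mem_filter] at hc hc'
      exact hfree a ha b hb.1 c hc.1 hb.2 hc.2 hc'.2
  have h2 : ∑ a ∈ U, ∑ b ∈ U.filter (fun b => G.Adj a b), (d a + d b) ≤ U.card * D := by
    rw [hD, Finset.mul_sum]
    apply Finset.sum_le_sum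
    intro a ha
    calc ∑ b ∈ U.filter (fun b => G.Adj a b), (d a + d b)
        ≤ ∑ b ∈ U.filter (fun b => G.Adj a b), U.card := Finset.sum_le_sum (h1 a ha)
      _ = U.card * d a := by rw [Finset.sum_const, smul_eq_mul, mul_comm]
  have h3 : ∑ a ∈ U, ∑ b ∈ U.filter (fun b => G.Adj a b), (d a + d b) = 2 * ∑ a ∈ U, d a ^ 2 := by
    have e1 : ∑ a ∈ U, ∑ b ∈ U.filter (fun b => G.Adj a b), d a = ∑ a ∈ U, d a ^ 2 := by
      apply Finset.sum_congr rfl
      intro a _
      rw [Finset.sum_const, smul_eq_mul, sq]
    have e2 : ∑ a ∈ U, ∑ b ∈ U.filter (fun b => G.Adj a b), d b = ∑ a ∈ U, d a ^ 2 := by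
      rw [Finset.sum_comm' (t' := U) (s' := fun b => U.filter fun a => G.Adj b a)]
      · apply Finset.sum_congr rfl
        intro a _
        rw [Finset.sum_const, smul_eq_mul, sq]
      · intro x y
        simp only [Finset.mem_filter]
        constructor
        · rintro ⟨h1, h2, h3⟩; exact ⟨⟨h1, h3.symm⟩, h2⟩
        · rintro ⟨⟨h1, h3⟩, h2⟩; exact ⟨h1, h2, h3.symm⟩
    simp only [Finset.sum_add_distrib]
    rw [e1, e2]; ring
  have h4 : D ^ 2 ≤ U.card * ∑ a ∈ U, d a ^ 2 := by
    rw [hD]; exact sq_sum_le_card_mul_sum_sq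
  have h5 : 2 * D ^ 2 ≤ U.card ^ 2 * D := by
    calc 2 * D ^ 2 ≤ 2 * (U.card * ∑ a ∈ U, d a ^ 2) := by omega
      _ = U.card * (2 * ∑ a ∈ U, d a ^ 2) := by ring
      _ ≤ U.card * (U.card * D) := by
          apply Nat.mul_le_mul_left
          rw [← h3]; exact h2
      _ = U.card ^ 2 * D := by ring
  rcases Nat.eq_zero_or_pos D with h0 | hpos
  · rw [h0]; simp
  · have : (2 * D) * D ≤ U.card ^ 2 * D := by nlinarith
    exact Nat.le_of_mul_le_mul_right this hpos

/-- A graph on 12 vertices with exactly one triangle has at most 32 edges. -/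
theorem one_triangle {V : Type*} [Fintype V] [DecidableEq V] (G : SimpleGraph V)
    (T : Finset V) (hT : T.card = 3) (hclq : ∀ a ∈ T, ∀ b ∈ T, a ≠ b → G.Adj a b)
    (huniq : ∀ a b c : V, G.Adj a b → G.Adj a c → G.Adj b c → ({a, b, c} : Finset V) = T)
    (E : Finset (Finset V)) (hE : ∀ s ∈ E, ∃ a b, G.Adj a b ∧ s = {a, b})
    (hm : Fintype.card V = 12) : E.card ≤ 32 := by
  classical
  let D : Finset (V × V) := Finset.univ.filter fun p => G.Adj p.1 p.2
  let D1 := D.filter fun p => p.1 ∈ T ∧ p.2 ∈ T
  let D2 := D.filter fun p => p.1 ∈ T ∧ p.2 ∉ T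
  let D3 := D.filter fun p => p.1 ∉ T ∧ p.2 ∈ T
  let D4 := D.filter fun p => p.1 ∉ T ∧ p.2 ∉ T
  have hTc : (Finset.univ \ T).card = 9 := by
    rw [Finset.card_sdiff_of_subset (Finset.subset_univ _), Finset.card_univ, hm, hT]
  -- each pair in E corresponds to two darts
  have h2E : 2 * E.card ≤ D.card := by
    let D' := D.filter fun p => ({p.1, p.2} : Finset V) ∈ E
    have h1 : D'.card = ∑ s ∈ E, (D'.filter fun p => ({p.1, p.2} : Finset V) = s).card :=
      Finset.card_eq_sum_card_fiberwise (fun p hp => by
        have := (Finset.mem_filter.1 (by exact_mod_cast hp : p ∈ D')).2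
        exact_mod_cast this)
    have h2 : ∀ s ∈ E, 2 ≤ (D'.filter fun p => ({p.1, p.2} : Finset V) = s).card := by
      intro s hs
      obtain ⟨a, b, hab, rfl⟩ := hE s hs
      have hne : (a, b) ≠ (b, a) := fun h => hab.ne (Prod.ext_iff.1 h).1
      rw [← Finset.card_pair hne]
      apply Finset.card_le_card
      intro p hp
      rw [Finset.mem_insert, Finset.mem_singleton] at hp
      rcases hp with rfl | rfl
      · simp only [D', D, Finset.mem_filter, Finset.mem_univ, true_and]
        exact ⟨⟨hab, hs⟩, trivial⟩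
      · simp only [D', D, Finset.mem_filter, Finset.mem_univ, true_and]
        exact ⟨⟨hab.symm, by rw [Finset.pair_comm b a]; exact hs⟩, Finset.pair_comm b a⟩
    have h3 : E.card * 2 ≤ ∑ s ∈ E, (D'.filter fun p => ({p.1, p.2} : Finset V) = s).card := by
      rw [← smul_eq_mul]
      exact Finset.card_nsmul_le_sum _ _ _ h2
    have h4 : D'.card ≤ D.card := Finset.card_filter_le _ _
    omega
  have hD : D.card = D1.card + D2.card + D3.card + D4.card := by
    have e1 : D.card = (D.filter fun p => p.1 ∈ T).card + (D.filter fun p => p.1 ∉ T).card :=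
      (Finset.card_filter_add_card_filter_not _).symm
    have f1 : (D.filter fun p => p.1 ∈ T).filter (fun p => p.2 ∈ T) = D1 :=
      Finset.filter_filter _ _ _
    have f2 : (D.filter fun p => p.1 ∈ T).filter (fun p => p.2 ∉ T) = D2 :=
      Finset.filter_filter _ _ _
    have f3 : (D.filter fun p => p.1 ∉ T).filter (fun p => p.2 ∈ T) = D3 :=
      Finset.filter_filter _ _ _
    have f4 : (D.filter fun p => p.1 ∉ T).filter (fun p => p.2 ∉ T) = D4 :=
      Finset.filter_filter _ _ _
    have e2 := Finset.card_filter_add_card_filter_not (s := D.filter fun p => p.1 ∈ T)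
        (fun p => p.2 ∈ T)
    have e3 := Finset.card_filter_add_card_filter_not (s := D.filter fun p => p.1 ∉ T)
        (fun p => p.2 ∈ T)
    rw [f1, f2] at e2
    rw [f3, f4] at e3
    omega
  have h1 : D1.card ≤ 6 := by
    have : D1 ⊆ T.offDiag := by
      intro p hp
      simp only [D1, D, Finset.mem_filter, Finset.mem_univ, true_and] at hp
      rw [Finset.mem_offDiag]
      exact ⟨hp.2.1, hp.2.2, hp.1.ne⟩
    calc D1.card ≤ T.offDiag.card := Finset.card_le_card this
      _ = 6 := by rw [Finset.offDiag_card, hT]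
  have key : ∀ w x y : V, w ∉ T → x ∈ T → y ∈ T → G.Adj w x → G.Adj w y → x = y := by
    intro w x y hw hx hy hwx hwy
    by_contra hxy
    have h := huniq w x y hwx hwy (hclq x hx y hy hxy)
    apply hw
    rw [← h]
    simp
  have h2 : D2.card ≤ 9 := by
    rw [← hTc]
    apply Finset.card_le_card_of_injOn (fun p => p.2)
    · intro p hp
      have hp' : p ∈ D2 := by exact_mod_cast hp
      simp only [D2, D, Finset.mem_filter, Finset.mem_univ, true_and] at hp'
      have : p.2 ∈ Finset.univ \ T := by simp [hp'.2.2]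
      exact_mod_cast this
    · intro p hp q hq hpq
      have hp' : p ∈ D2 := by exact_mod_cast hp
      have hq' : q ∈ D2 := by exact_mod_cast hq
      simp only [D2, D, Finset.mem_filter, Finset.mem_univ, true_and] at hp' hq'
      have hpq' : p.2 = q.2 := hpq
      refine Prod.ext ?_ hpq'
      apply key p.2 _ _ hp'.2.2 hp'.2.1 hq'.2.1 hp'.1.symm
      rw [hpq']; exact hq'.1.symm
  have h3 : D3.card ≤ 9 := by
    rw [← hTc]
    apply Finset.card_le_card_of_injOn (fun p => p.1)
    · intro p hp
      have hp' : p ∈ D3 := by exact_mod_cast hp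
      simp only [D3, D, Finset.mem_filter, Finset.mem_univ, true_and] at hp'
      have : p.1 ∈ Finset.univ \ T := by simp [hp'.2.1]
      exact_mod_cast this
    · intro p hp q hq hpq
      have hp' : p ∈ D3 := by exact_mod_cast hp
      have hq' : q ∈ D3 := by exact_mod_cast hq
      simp only [D3, D, Finset.mem_filter, Finset.mem_univ, true_and] at hp' hq'
      have hpq' : p.1 = q.1 := hpq
      refine Prod.ext hpq' ?_
      apply key p.1 _ _ hp'.2.1 hp'.2.2 hq'.2.2 hp'.1
      rw [hpq']; exact hq'.1
  have h4 : 2 * D4.card ≤ 81 := by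
    have hm4 := mantel_darts G (Finset.univ \ T) (by
      intro a ha b _ c _ hab hac hbc
      have h := huniq a b c hab hac hbc
      have : a ∉ T := by simpa using ha
      apply this
      rw [← h]; simp)
    rw [hTc] at hm4
    have e : D4.card = ∑ a ∈ Finset.univ \ T, ((Finset.univ \ T).filter fun b => G.Adj a b).card := by
      have h1 : D4.card = ∑ a ∈ Finset.univ \ T, (D4.filter fun p => p.1 = a).card :=
        Finset.card_eq_sum_card_fiberwise (fun p hp => by
          have hp' : p ∈ D4 := by exact_mod_cast hp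
          simp only [D4, D, Finset.mem_filter, Finset.mem_univ, true_and] at hp'
          have : p.1 ∈ Finset.univ \ T := by simp [hp'.2.1]
          exact_mod_cast this)
      rw [h1]
      apply Finset.sum_congr rfl
      intro a ha
      symm
      apply Finset.card_nbij' (fun b => (a, b)) (fun p => p.2)
      · intro b hb
        have hb' : b ∈ (Finset.univ \ T).filter fun b => G.Adj a b := by exact_mod_cast hb
        have ha' : a ∉ T := by simpa using ha
        simp only [Finset.mem_filter, Finset.mem_sdiff, Finset.mem_univ, true_and] at hb'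
        have : (a, b) ∈ D4.filter fun p => p.1 = a := by
          simp only [D4, D, Finset.mem_filter, Finset.mem_univ, true_and]
          exact ⟨⟨hb'.2, ha', hb'.1⟩, trivial⟩
        exact_mod_cast this
      · intro p hp
        have hp' : p ∈ D4.filter fun p => p.1 = a := by exact_mod_cast hp
        simp only [D4, D, Finset.mem_filter, Finset.mem_univ, true_and] at hp'
        obtain ⟨⟨h5, h6, h7⟩, h8⟩ := hp'
        have : p.2 ∈ (Finset.univ \ T).filter fun b => G.Adj a b := by
          simp only [Finset.mem_filter, Finset.mem_sdiff, Finset.mem_univ, true_and]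
          exact ⟨h7, h8 ▸ h5⟩
        exact_mod_cast this
      · intro b _; rfl
      · intro p hp
        have hp' : p ∈ D4.filter fun p => p.1 = a := by exact_mod_cast hp
        rw [Finset.mem_filter] at hp'
        exact Prod.ext hp'.2.symm rfl
    rw [e]
    simpa using hm4
  omega

end Pool.Agent.TH355.FS
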