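import Pool.Agent.TH355.FS.Data
import Pool.Agent.TH355.FS.OneTriangle

set_option autoImplicit false
open Finset

namespace Pool.Agent.TH355.FS

theorem toS_full : toS 24 16777215 24 = Finset.univ := by
  ext x
  rw [mem_toS]
  simp only [Finset.mem_univ, iff_true]
  refine ⟨x.2, ?_⟩
  revert x
  decide +kernel

theorem cl_card (k : ℕ) : (cl H24 Finset.univ k).card = cnt' nb24 k 16777215 24 := by
  rw [← toS_full, cnt_sound H24 nb24 H24_adj le_rfl, cnt'_eq]

theorem sph24 (F : Finset (Fin 24)) (hc : H24.IsClique (F : Set (Fin 24))) :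
    F.card ≤ 6 ∧ Sph H24 (nbrs H24 Finset.univ F) (6 - F.card) := by
  have := sph_all H24 nb24 H24_adj (d := 6) (m := 16777215) (by norm_num) chk_sphere F
    (by rw [toS_full]; exact Finset.subset_univ _) hc
  rw [toS_full] at this
  exact this

/-- sums over cliques by size -/
theorem sum_cliques (φ : ℕ → ℤ) [DecidablePred fun F : Finset (Fin 24) =>
      H24.IsClique (F : Set (Fin 24))] :
    ∑ F ∈ Finset.univ.filter (fun F : Finset (Fin 24) => H24.IsClique (F : Set (Fin 24))),
      φ F.card = φ 0 + 24 * φ 1 + 201 * φ 2 + 743 * φ 3 + 1344 * φ 4 + 1167 * φ 5 + 389 * φ 6 := by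
  classical
  have hmaps : ∀ F ∈ Finset.univ.filter (fun F : Finset (Fin 24) =>
      H24.IsClique (F : Set (Fin 24))), F.card ∈ Finset.range 7 := by
    intro F hF
    rw [Finset.mem_filter] at hF
    have := (sph24 F hF.2).1
    rw [Finset.mem_range]; omega
  rw [← Finset.sum_fiberwise_of_maps_to hmaps]
  have h : ∀ k, ∑ F ∈ (Finset.univ.filter (fun F : Finset (Fin 24) =>
      H24.IsClique (F : Set (Fin 24)))).filter (fun F => F.card = k), φ F.card =
      ((cl H24 Finset.univ k).card : ℤ) * φ k := by
    intro k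
    have e : (Finset.univ.filter (fun F : Finset (Fin 24) =>
      H24.IsClique (F : Set (Fin 24)))).filter (fun F => F.card = k) = cl H24 Finset.univ k := by
      ext F
      simp [mem_cl]
    rw [e, Finset.sum_congr rfl (g := fun _ => φ k), Finset.sum_const, nsmul_eq_mul]
    intro F hF
    rw [((mem_cl H24).1 hF).2.2]
  simp only [Finset.sum_range_succ, Finset.sum_range_zero, h]
  rw [cl_zero, cl_card 1, cl_card 2, cl_card 3, cl_card 4, cl_card 5, cl_card 6,
    chk_c1, chk_c2, chk_c3, chk_c4, chk_c5, chk_c6]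
  push_cast
  ring

/-- No finite graph has clique vector `(1, 12, 33, 1)`. -/
theorem no_graph {m : ℕ} (G : SimpleGraph (Fin m)) [DecidableRel G.Adj]
    (h1 : (G.cliqueFinset 1).card = 12) (h2 : (G.cliqueFinset 2).card = 33)
    (h3 : (G.cliqueFinset 3).card = 1) : False := by
  classical
  have hm : m = 12 := by
    have : (G.cliqueFinset 1) = Finset.univ.image (fun v : Fin m => ({v} : Finset (Fin m))) := by
      ext s
      simp only [SimpleGraph.mem_cliqueFinset_iff, SimpleGraph.isNClique_iff, Finset.mem_image,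
        Finset.mem_univ, true_and]
      constructor
      · rintro ⟨-, h⟩
        obtain ⟨v, hv⟩ := Finset.card_eq_one.1 h
        exact ⟨v, hv.symm⟩
      · rintro ⟨v, rfl⟩
        simp
    rw [this, Finset.card_image_of_injective _ Finset.singleton_injective, Finset.card_univ,
      Fintype.card_fin] at h1
    exact h1
  obtain ⟨T, hT⟩ := Finset.card_eq_one.1 h3
  have hTm : G.IsNClique 3 T := by
    rw [← SimpleGraph.mem_cliqueFinset_iff, hT]; simp
  have := one_triangle G T hTm.card_eq (fun a ha b hb hab =>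
      hTm.isClique (by exact_mod_cast ha) (by exact_mod_cast hb) hab)
    (fun a b c hab hac hbc => by
      have : ({a, b, c} : Finset (Fin m)) ∈ G.cliqueFinset 3 := by
        rw [SimpleGraph.mem_cliqueFinset_iff, SimpleGraph.is3Clique_triple_iff]
        exact ⟨hab, hac, hbc⟩
      rw [hT] at this
      simpa using this)
    (G.cliqueFinset 2) (fun s hs => by
      rw [SimpleGraph.mem_cliqueFinset_iff, SimpleGraph.isNClique_iff] at hs
      obtain ⟨hc, hcard⟩ := hs
      obtain ⟨a, b, hab, rfl⟩ := Finset.card_eq_two.1 hcard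
      exact ⟨a, b, hc (by simp) (by simp) hab, rfl⟩)
    (by simp [hm])
  omega

end Pool.Agent.TH355.FS
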