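import Pool.Agent.TH355.FS.Homology

set_option autoImplicit false
open Finset

namespace Pool.Agent.TH355.FS

/-! ## Certificate checkers on bit masks -/

def coneAt (nb : ℕ → ℕ) (m u : ℕ) : Bool :=
  Nat.testBit m u && Nat.beq (Nat.land (Nat.xor m (2 ^ u)) (nb u)) (Nat.xor m (2 ^ u))

def anyCone (nb : ℕ → ℕ) (m : ℕ) : ℕ → Bool
  | 0 => false
  | u + 1 => coneAt nb m u || anyCone nb m u

def findLink (g : ℕ → Bool) (nb : ℕ → ℕ) (m : ℕ) : ℕ → Bool
  | 0 => false
  | v + 1 => bif (Nat.testBit m v && g (Nat.land m (nb v))) then g (Nat.xor m (2 ^ v))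
      else findLink g nb m v

def acyc (nb : ℕ → ℕ) (w : ℕ) : ℕ → ℕ → Bool
  | 0, _ => false
  | f + 1, m => anyCone nb m w || findLink (acyc nb w f) nb m w

def hasV (nb : ℕ → ℕ) (w m : ℕ) : ℕ → Bool
  | 0 => false
  | v + 1 => (Nat.testBit m v && acyc nb w w (Nat.xor m (2 ^ v))) || hasV nb w m v

def loopAll (g : ℕ → ℕ → Bool) (nb : ℕ → ℕ) (m : ℕ) : ℕ → Bool
  | 0 => true
  | j + 1 => (bif Nat.testBit m j then g (Nat.land m (nb j)) j else true) && loopAll g nb m j

def allc (nb : ℕ → ℕ) (w : ℕ) : ℕ → ℕ → ℕ → Bool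
  | 0, m, _ => Nat.beq m 0
  | k + 1, m, i => hasV nb w m w && loopAll (allc nb w k) nb m i

def cntL (g : ℕ → ℕ → ℕ) (nb : ℕ → ℕ) (m : ℕ) : ℕ → ℕ
  | 0 => 0
  | i + 1 => cntL g nb m i + (bif Nat.testBit m i then g (Nat.land m (nb i)) i else 0)

def cnt (nb : ℕ → ℕ) : ℕ → ℕ → ℕ → ℕ
  | 0, _, _ => 1
  | k + 1, m, i => cntL (cnt nb k) nb m i

section
variable {n : ℕ} (H : SimpleGraph (Fin n)) (nb : ℕ → ℕ)

/-- the set of vertices encoded by a mask, cut at `i` -/
def toS (n : ℕ) (m i : ℕ) : Finset (Fin n) :=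
  Finset.univ.filter fun x : Fin n => (x : ℕ) < i ∧ Nat.testBit m x = true

theorem mem_toS {m i : ℕ} {x : Fin n} : x ∈ toS n m i ↔ (x : ℕ) < i ∧ Nat.testBit m x = true := by
  simp [toS]

theorem toS_xor {m i : ℕ} {v : Fin n} (hv : Nat.testBit m v = true) :
    toS n (Nat.xor m (2 ^ (v : ℕ))) i = (toS n m i).erase v := by
  ext x
  rw [mem_toS, Finset.mem_erase, mem_toS]
  have : Nat.testBit (Nat.xor m (2 ^ (v : ℕ))) x =
      (Nat.testBit m x ^^ decide ((v : ℕ) = (x : ℕ))) := by
    have h := Nat.testBit_xor m (2 ^ (v : ℕ)) x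
    rw [Nat.testBit_two_pow] at h
    exact h
  rw [this]
  by_cases hxv : x = v
  · subst hxv
    simp [hv]
  · have h1 : ¬ ((v : ℕ) = (x : ℕ)) := fun h => hxv (Fin.ext h.symm)
    simp [hxv, h1]

theorem testBit_land (a b i : ℕ) : Nat.testBit (Nat.land a b) i =
    (Nat.testBit a i && Nat.testBit b i) := Nat.testBit_and a b i

variable (hH : ∀ i j : Fin n, H.Adj i j ↔ Nat.testBit (nb i) j = true)

include hH

theorem toS_land {m i : ℕ} {v : Fin n} :
    toS n (Nat.land m (nb v)) i = nbr H (toS n m i) v := by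
  ext x
  rw [mem_toS, mem_nbr, mem_toS, hH, testBit_land, Bool.and_eq_true]
  tauto

theorem anyCone_sound {m w : ℕ} (hw : w ≤ n) (h : anyCone nb m w = true) :
    Acyc H (toS n m n) := by
  induction w with
  | zero => simp [anyCone] at h
  | succ u ih =>
    simp only [anyCone, Bool.or_eq_true] at h
    rcases h with h | h
    · simp only [coneAt, Bool.and_eq_true] at h
      obtain ⟨h1, h2⟩ := h
      replace h2 := Nat.eq_of_beq_eq_true h2
      have hu : u < n := by omega
      apply acyc_of_cone H _ (u := ⟨u, hu⟩)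
      · rw [mem_toS]; exact ⟨hu, h1⟩
      · intro x hx hxu
        rw [hH]
        rw [mem_toS] at hx
        have h3 : Nat.testBit (Nat.xor m (2 ^ u)) x = true := by
          have h := Nat.testBit_xor m (2 ^ u) x
          rw [Nat.testBit_two_pow] at h
          have h' : Nat.testBit (Nat.xor m (2 ^ u)) x = (Nat.testBit m x ^^ decide (u = (x : ℕ))) := h
          rw [h', hx.2]
          have : ¬ (u = (x : ℕ)) := fun h => hxu (Fin.ext h.symm)
          simp [this]
        rw [← h2, testBit_land, Bool.and_eq_true] at h3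
        exact h3.2
    · exact ih (by omega) h

theorem findLink_sound {g : ℕ → Bool} (hg : ∀ m, g m = true → Acyc H (toS n m n)) {m w : ℕ}
    (hw : w ≤ n) (h : findLink g nb m w = true) : Acyc H (toS n m n) := by
  induction w with
  | zero => simp [findLink] at h
  | succ v ih =>
    rw [findLink] at h
    by_cases hc : (Nat.testBit m v && g (Nat.land m (nb v))) = true
    · rw [hc, cond_true] at h
      rw [Bool.and_eq_true] at hc
      have hv : v < n := by omega
      have h1 := hg _ h
      have h2 := hg _ hc.2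
      have e1 := toS_xor (n := n) (m := m) (i := n) (v := ⟨v, hv⟩) hc.1
      have e2 := toS_land H nb hH (m := m) (i := n) (v := ⟨v, hv⟩)
      simp only at e1 e2
      rw [e1] at h1
      rw [e2] at h2
      exact acyc_of_split H _ (v := ⟨v, hv⟩) (by rw [mem_toS]; exact ⟨hv, hc.1⟩) h1 h2
    · rw [Bool.not_eq_true] at hc
      rw [hc, cond_false] at h
      exact ih (by omega) h

theorem acyc_sound {f m w : ℕ} (hw : w ≤ n) (h : acyc nb w f m = true) : Acyc H (toS n m n) := by
  induction f generalizing m with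
  | zero => simp [acyc] at h
  | succ f ih =>
    simp only [acyc, Bool.or_eq_true] at h
    rcases h with h | h
    · exact anyCone_sound H nb hH hw h
    · exact findLink_sound H nb hH (fun m hm => ih hm) hw h

theorem hasV_sound {m w u : ℕ} (hw : w ≤ n) (hu : u ≤ n) (h : hasV nb w m u = true) :
    ∃ v ∈ toS n m n, Acyc H ((toS n m n).erase v) := by
  induction u with
  | zero => simp [hasV] at h
  | succ v ih =>
    simp only [hasV, Bool.or_eq_true, Bool.and_eq_true] at h
    rcases h with h | h
    · have hv : v < n := by omega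
      refine ⟨⟨v, hv⟩, by rw [mem_toS]; exact ⟨hv, h.1⟩, ?_⟩
      have e1 := toS_xor (n := n) (m := m) (i := n) (v := ⟨v, hv⟩) h.1
      simp only at e1
      rw [← e1]
      exact acyc_sound H nb hH hw h.2
    · exact ih (by omega) h

omit hH in
/-- common neighbours of `F` inside `S` -/
noncomputable def nbrs (S F : Finset (Fin n)) : Finset (Fin n) := by
  classical exact S.filter fun w => ∀ u ∈ F, H.Adj u w

omit hH in
theorem mem_nbrs {S F : Finset (Fin n)} {w : Fin n} :
    w ∈ nbrs H S F ↔ w ∈ S ∧ ∀ u ∈ F, H.Adj u w := by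
  classical
  simp [nbrs]

omit hH in
theorem nbrs_empty (S : Finset (Fin n)) : nbrs H S ∅ = S := by
  ext w; simp [mem_nbrs]

omit hH in
theorem nbrs_nbr (S F : Finset (Fin n)) (v : Fin n) (hv : v ∈ F) :
    nbrs H (nbr H S v) (F.erase v) = nbrs H S F := by
  ext w
  simp only [mem_nbrs, mem_nbr, Finset.mem_erase]
  constructor
  · rintro ⟨⟨h1, h2⟩, h3⟩
    refine ⟨h1, fun u hu => ?_⟩
    by_cases huv : u = v
    · rw [huv]; exact h2
    · exact h3 u ⟨huv, hu⟩
  · rintro ⟨h1, h2⟩
    exact ⟨⟨h1, h2 v hv⟩, fun u hu => h2 u hu.2⟩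

omit hH in
theorem loopAll_sound {g : ℕ → ℕ → Bool} {m i : ℕ} (h : loopAll g nb m i = true) :
    ∀ j < i, Nat.testBit m j = true → g (Nat.land m (nb j)) j = true := by
  induction i with
  | zero => intro j hj; omega
  | succ i ih =>
    simp only [loopAll, Bool.and_eq_true] at h
    intro j hj hm
    rcases Nat.lt_or_ge j i with hlt | hge
    · exact ih h.2 j hlt hm
    · have : j = i := by omega
      subst this
      have h1 := h.1
      rw [hm, cond_true] at h1
      exact h1

theorem allc_sound {k m i : ℕ} (hi : i ≤ n) (h : allc nb n k m i = true) (F : Finset (Fin n))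
    (hF : F ⊆ toS n m i) (hc : H.IsClique (F : Set (Fin n))) :
    F.card ≤ k ∧
    (F.card < k → ∃ v ∈ nbrs H (toS n m n) F, Acyc H ((nbrs H (toS n m n) F).erase v)) ∧
    (F.card = k → nbrs H (toS n m n) F = ∅) := by
  induction k generalizing m i F with
  | zero =>
    rw [allc] at h
    replace h := Nat.eq_of_beq_eq_true h
    subst h
    have : toS n 0 i = ∅ := by
      ext x; simp [mem_toS]
    rw [this, Finset.subset_empty] at hF
    subst hF
    have h0 : toS n 0 n = ∅ := by
      ext x; simp [mem_toS]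
    simp [nbrs_empty, h0]
  | succ k ih =>
    simp only [allc, Bool.and_eq_true] at h
    obtain ⟨h1, h2⟩ := h
    rcases F.eq_empty_or_nonempty with rfl | hne
    · simp only [nbrs_empty, Finset.card_empty]
      refine ⟨by omega, fun _ => hasV_sound H nb hH le_rfl le_rfl h1, by omega⟩
    · -- the maximal element
      obtain ⟨j, hjF, hjmax⟩ := Finset.exists_max_image F (fun x : Fin n => (x : ℕ)) hne
      have hj := (mem_toS).1 (hF hjF)
      have h3 := loopAll_sound nb h2 j hj.1 hj.2
      have hsub : F.erase j ⊆ toS n (Nat.land m (nb j)) j := by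
        intro x hx
        rw [Finset.mem_erase] at hx
        have hx' := (mem_toS).1 (hF hx.2)
        rw [toS_land H nb hH, mem_nbr, mem_toS]
        refine ⟨⟨?_, hx'.2⟩, hc (by exact_mod_cast hjF) (by exact_mod_cast hx.2) hx.1.symm⟩
        have := hjmax x hx.2
        have hne : (x : ℕ) ≠ j := fun h => hx.1 (Fin.ext h)
        omega
      have h4 := ih (by omega) h3 (F.erase j) hsub
        (hc.subset (by exact_mod_cast Finset.erase_subset _ _))
      rw [toS_land H nb hH, nbrs_nbr H _ _ _ hjF, Finset.card_erase_of_mem hjF] at h4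
      have hpos : 0 < F.card := Finset.card_pos.2 hne
      obtain ⟨a, b, c⟩ := h4
      exact ⟨by omega, fun h => b (by omega), fun h => c (by omega)⟩

omit hH in
theorem nbrs_insert (S F : Finset (Fin n)) (v : Fin n) :
    nbrs H S (insert v F) = nbr H (nbrs H S F) v := by
  ext w
  simp only [mem_nbrs, mem_nbr, Finset.mem_insert]
  constructor
  · rintro ⟨h1, h2⟩
    exact ⟨⟨h1, fun u hu => h2 u (Or.inr hu)⟩, h2 v (Or.inl rfl)⟩
  · rintro ⟨⟨h1, h2⟩, h3⟩
    refine ⟨h1, fun u hu => ?_⟩
    rcases hu with rfl | hu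
    · exact h3
    · exact h2 u hu

theorem sph_all {d m : ℕ} (hd : d ≤ n) (h : allc nb n d m n = true) (F : Finset (Fin n))
    (hF : F ⊆ toS n m n) (hc : H.IsClique (F : Set (Fin n))) :
    F.card ≤ d ∧ Sph H (nbrs H (toS n m n) F) (d - F.card) := by
  have h0 := allc_sound H nb hH le_rfl h
  refine ⟨(h0 F hF hc).1, ?_⟩
  induction hk : d - F.card generalizing F with
  | zero =>
    have h1 := h0 F hF hc
    rw [h1.2.2 (by omega)]
    exact sph_empty H
  | succ k ih =>
    have h1 := h0 F hF hc
    obtain ⟨v, hv, hacyc⟩ := h1.2.1 (by omega)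
    have hv' := (mem_nbrs H).1 hv
    have hvF : v ∉ F := fun h => H.irrefl (hv'.2 v h)
    have h2 := ih (insert v F) (Finset.insert_subset hv'.1 hF)
      ((clique_insert H hvF).2 ⟨hc, fun w hw => (hv'.2 w hw).symm⟩)
      (by rw [Finset.card_insert_of_notMem hvF]; omega)
    rw [nbrs_insert] at h2
    exact sph_of_split H _ hv (by omega) hacyc h2

theorem cntL_sound {g : ℕ → ℕ → ℕ} {k : ℕ}
    (hg : ∀ m i, i ≤ n → (cl H (toS n m i) k).card = g m i) {m i : ℕ} (hi : i ≤ n) :
    (cl H (toS n m i) (k + 1)).card = cntL g nb m i := by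
  induction i with
  | zero =>
    have : toS n m 0 = ∅ := by
      ext x; simp [mem_toS]
    rw [this, cntL, Finset.card_eq_zero]
    ext A
    simp only [mem_cl, Finset.notMem_empty, iff_false, not_and]
    intro h _ h'
    rw [Finset.subset_empty.1 h] at h'
    simp at h'
  | succ i ih =>
    have hin : i < n := by omega
    by_cases hb : Nat.testBit m i = true
    · rw [cntL, hb, cond_true]
      have hv : (⟨i, hin⟩ : Fin n) ∈ toS n m (i + 1) := by
        rw [mem_toS]; exact ⟨by simp, hb⟩
      rw [cl_card_succ H _ hv]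
      have e1 : (toS n m (i + 1)).erase ⟨i, hin⟩ = toS n m i := by
        ext x
        rw [Finset.mem_erase, mem_toS, mem_toS, Ne, Fin.ext_iff]
        simp only
        constructor
        · rintro ⟨h1, h2, h3⟩; exact ⟨by omega, h3⟩
        · rintro ⟨h1, h2⟩; exact ⟨by omega, by omega, h2⟩
      have e2 : nbr H (toS n m (i + 1)) ⟨i, hin⟩ = toS n (Nat.land m (nb i)) i := by
        have e3 := toS_land H nb hH (m := m) (i := i + 1) (v := ⟨i, hin⟩)
        simp only at e3
        rw [← e3]
        ext x
        rw [mem_toS, mem_toS]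
        constructor
        · rintro ⟨h1, h2⟩
          refine ⟨?_, h2⟩
          have : (x : ℕ) ≠ i := by
            intro hxi
            have hx : x = ⟨i, hin⟩ := Fin.ext hxi
            rw [testBit_land, Bool.and_eq_true] at h2
            have h3 := (hH ⟨i, hin⟩ x).2 h2.2
            rw [hx] at h3
            exact H.irrefl h3
          omega
        · rintro ⟨h1, h2⟩; exact ⟨by omega, h2⟩
      rw [e1, e2, ih (by omega), hg _ _ (by omega)]
    · have hb' : Nat.testBit m i = false := by simpa using hb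
      rw [cntL, hb', cond_false, add_zero, ← ih (by omega)]
      have e1 : toS n m (i + 1) = toS n m i := by
        ext x
        rw [mem_toS, mem_toS]
        constructor
        · rintro ⟨h1, h2⟩
          refine ⟨?_, h2⟩
          have : (x : ℕ) ≠ i := by
            intro hxi
            rw [hxi] at h2
            exact hb h2
          omega
        · rintro ⟨h1, h2⟩; exact ⟨by omega, h2⟩
      rw [e1]

theorem cnt_sound {k m i : ℕ} (hi : i ≤ n) : (cl H (toS n m i) k).card = cnt nb k m i := by
  induction k generalizing m i with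
  | zero => rw [cnt, cl_zero]
  | succ k ih => exact cntL_sound H nb hH (fun m i hi => ih hi) hi

end

end Pool.Agent.TH355.FS
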