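import Pool.Agent.TH355.FS.Fast

set_option autoImplicit false
set_option maxRecDepth 100000
open Finset

namespace Pool.Agent.TH355.FS

/-- adjacency table of the graph on 24 vertices, packed into one number -/
def tab : ℕ := 119392555570402616541829242675540024973814943441192650144945827974277022637492652454086838569706998555909341891021821211489915450268647065757159979391881213200660398073180030

/-- neighbourhood masks -/
def nb24 (v : ℕ) : ℕ := Nat.land (Nat.shiftRight tab (Nat.mul 24 v)) 16777215

theorem nb24_symm : ∀ i j : Fin 24, Nat.testBit (nb24 i) j = Nat.testBit (nb24 j) i := by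
  decide +kernel

theorem nb24_irrefl : ∀ i : Fin 24, Nat.testBit (nb24 i) i = false := by
  decide +kernel

/-- the graph -/
def H24 : SimpleGraph (Fin 24) where
  Adj i j := Nat.testBit (nb24 i) j = true
  symm := ⟨fun i j h => by rw [nb24_symm] at h; exact h⟩
  loopless := ⟨fun i h => by rw [nb24_irrefl] at h; exact absurd h (by simp)⟩

theorem H24_adj (i j : Fin 24) : H24.Adj i j ↔ Nat.testBit (nb24 i) j = true := Iff.rfl

theorem chk_sphere' : allc' nb24 24 6 16777215 24 = true := by
  decide +kernel

theorem chk_sphere : allc nb24 24 6 16777215 24 = true := by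
  rw [← allc'_eq]; exact chk_sphere'

theorem chk_c1 : cnt' nb24 1 16777215 24 = 24 := by decide +kernel
theorem chk_c2 : cnt' nb24 2 16777215 24 = 201 := by decide +kernel
theorem chk_c3 : cnt' nb24 3 16777215 24 = 743 := by decide +kernel
theorem chk_c4 : cnt' nb24 4 16777215 24 = 1344 := by decide +kernel
theorem chk_c5 : cnt' nb24 5 16777215 24 = 1167 := by decide +kernel
theorem chk_c6 : cnt' nb24 6 16777215 24 = 389 := by decide +kernel

end Pool.Agent.TH355.FS
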