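import Pool.Agent.TH355.FS.Cert

set_option autoImplicit false

namespace Pool.Agent.TH355.FS

/-! ## Kernel-friendly versions of the checkers -/

@[reducible] def tb (m v : ℕ) : Bool := Nat.beq (Nat.land (Nat.shiftRight m v) 1) 1

theorem tb_eq (m v : ℕ) : tb m v = Nat.testBit m v := by
  have h1 : Nat.land (Nat.shiftRight m v) 1 = m / 2 ^ v % 2 := by
    have : Nat.shiftRight m v = m / 2 ^ v := Nat.shiftRight_eq_div_pow m v
    rw [this]
    exact Nat.and_one_is_mod _
  rw [tb, h1, Nat.testBit_eq_decide_div_mod_eq]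
  rcases Nat.mod_two_eq_zero_or_one (m / 2 ^ v) with h | h <;> rw [h] <;> rfl

def force {α : Type} (x : ℕ) (k : ℕ → α) : α := Nat.rec (k 0) (fun p _ => k (Nat.succ p)) x

theorem force_eq {α : Type} (x : ℕ) (k : ℕ → α) : force x k = k x := by
  cases x <;> rfl

def anyCone' (nb : ℕ → ℕ) (m : ℕ) (w : ℕ) : Bool :=
  Nat.rec false (fun u ih => (tb m u).rec ih (Bool.rec ih true
    (Nat.beq (Nat.land (Nat.xor m (Nat.pow 2 u)) (nb u)) (Nat.xor m (Nat.pow 2 u))))) w

theorem anyCone'_eq (nb : ℕ → ℕ) (m : ℕ) (w : ℕ) : anyCone' nb m w = anyCone nb m w := by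
  induction w with
  | zero => rfl
  | succ u ih =>
    have h : anyCone' nb m (u + 1) = (tb m u).rec (anyCone' nb m u) (Bool.rec (anyCone' nb m u) true
      (Nat.beq (Nat.land (Nat.xor m (2 ^ u)) (nb u)) (Nat.xor m (2 ^ u)))) := rfl
    rw [h, ih, anyCone, coneAt, tb_eq]
    cases Nat.testBit m u <;>
      cases Nat.beq (Nat.land (Nat.xor m (2 ^ u)) (nb u)) (Nat.xor m (2 ^ u)) <;> rfl

def findLink' (g : ℕ → Bool) (nb : ℕ → ℕ) (m : ℕ) (w : ℕ) : Bool :=
  Nat.rec false (fun v ih => (tb m v).rec ih (Bool.rec ih (force (Nat.xor m (Nat.pow 2 v)) g)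
    (force (Nat.land m (nb v)) g))) w

theorem findLink'_eq (g : ℕ → Bool) (nb : ℕ → ℕ) (m : ℕ) (w : ℕ) :
    findLink' g nb m w = findLink g nb m w := by
  induction w with
  | zero => rfl
  | succ v ih =>
    have h : findLink' g nb m (v + 1) = (tb m v).rec (findLink' g nb m v)
      (Bool.rec (findLink' g nb m v) (force (Nat.xor m (2 ^ v)) g)
        (force (Nat.land m (nb v)) g)) := rfl
    rw [h, ih, findLink, tb_eq, force_eq, force_eq]
    cases Nat.testBit m v <;> cases g (Nat.land m (nb v)) <;> rfl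

def acyc' (nb : ℕ → ℕ) (w f : ℕ) : ℕ → Bool :=
  Nat.rec (fun _ => false) (fun _ ih m => Bool.rec (findLink' ih nb m w) true
    (anyCone' nb m w)) f

theorem acyc'_eq (nb : ℕ → ℕ) (w f m : ℕ) : acyc' nb w f m = acyc nb w f m := by
  induction f generalizing m with
  | zero => rfl
  | succ f ih =>
    have h : acyc' nb w (f + 1) m = Bool.rec (findLink' (acyc' nb w f) nb m w) true
      (anyCone' nb m w) := rfl
    have h2 : acyc' nb w f = acyc nb w f := funext ih
    rw [h, h2, findLink'_eq, anyCone'_eq, acyc]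
    cases anyCone nb m w <;> rfl

def hasV' (nb : ℕ → ℕ) (w m i : ℕ) : Bool :=
  Nat.rec false (fun v ih => (tb m v).rec ih (Bool.rec ih true
    (force (Nat.xor m (Nat.pow 2 v)) (acyc' nb w w)))) i

theorem hasV'_eq (nb : ℕ → ℕ) (w m i : ℕ) : hasV' nb w m i = hasV nb w m i := by
  induction i with
  | zero => rfl
  | succ v ih =>
    have h : hasV' nb w m (v + 1) = (tb m v).rec (hasV' nb w m v) (Bool.rec (hasV' nb w m v) true
      (force (Nat.xor m (2 ^ v)) (acyc' nb w w))) := rfl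
    rw [h, ih, hasV, tb_eq, force_eq, acyc'_eq]
    cases Nat.testBit m v <;> cases acyc nb w w (Nat.xor m (2 ^ v)) <;> rfl

def loopAll' (g : ℕ → ℕ → Bool) (nb : ℕ → ℕ) (m i : ℕ) : Bool :=
  Nat.rec true (fun j ih => (tb m j).rec ih (Bool.rec false ih
    (force (Nat.land m (nb j)) (fun x => g x j)))) i

theorem loopAll'_eq (g : ℕ → ℕ → Bool) (nb : ℕ → ℕ) (m i : ℕ) :
    loopAll' g nb m i = loopAll g nb m i := by
  induction i with
  | zero => rfl
  | succ j ih =>
    have h : loopAll' g nb m (j + 1) = (tb m j).rec (loopAll' g nb m j)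
      (Bool.rec false (loopAll' g nb m j) (force (Nat.land m (nb j)) (fun x => g x j))) := rfl
    rw [h, ih, loopAll, tb_eq, force_eq]
    cases Nat.testBit m j <;> cases g (Nat.land m (nb j)) j <;> rfl

def allc' (nb : ℕ → ℕ) (w k : ℕ) : ℕ → ℕ → Bool :=
  Nat.rec (fun m _ => Nat.beq m 0) (fun _ ih m i => Bool.rec false (loopAll' ih nb m i)
    (hasV' nb w m w)) k

theorem allc'_eq (nb : ℕ → ℕ) (w k m i : ℕ) : allc' nb w k m i = allc nb w k m i := by
  induction k generalizing m i with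
  | zero => rfl
  | succ k ih =>
    have h : allc' nb w (k + 1) m i = Bool.rec false (loopAll' (allc' nb w k) nb m i)
      (hasV' nb w m w) := rfl
    have h2 : allc' nb w k = allc nb w k := funext fun m => funext fun i => ih m i
    rw [h, h2, loopAll'_eq, hasV'_eq, allc]
    cases hasV nb w m w <;> rfl

def cntL' (g : ℕ → ℕ → ℕ) (nb : ℕ → ℕ) (m i : ℕ) : ℕ :=
  Nat.rec 0 (fun j ih => (tb m j).rec ih (Nat.add ih (force (Nat.land m (nb j))
    (fun x => g x j)))) i

theorem cntL'_eq (g : ℕ → ℕ → ℕ) (nb : ℕ → ℕ) (m i : ℕ) :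
    cntL' g nb m i = cntL g nb m i := by
  induction i with
  | zero => rfl
  | succ j ih =>
    have h : cntL' g nb m (j + 1) = (tb m j).rec (cntL' g nb m j)
      (Nat.add (cntL' g nb m j) (force (Nat.land m (nb j)) (fun x => g x j))) := rfl
    rw [h, ih, cntL, tb_eq, force_eq]
    cases Nat.testBit m j <;> rfl

def cnt' (nb : ℕ → ℕ) (k : ℕ) : ℕ → ℕ → ℕ :=
  Nat.rec (fun _ _ => 1) (fun _ ih m i => cntL' ih nb m i) k

theorem cnt'_eq (nb : ℕ → ℕ) (k m i : ℕ) : cnt' nb k m i = cnt nb k m i := by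
  induction k generalizing m i with
  | zero => rfl
  | succ k ih =>
    have h : cnt' nb (k + 1) m i = cntL' (cnt' nb k) nb m i := rfl
    have h2 : cnt' nb k = cnt nb k := funext fun m => funext fun i => ih m i
    rw [h, h2, cntL'_eq, cnt]

end Pool.Agent.TH355.FS
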