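import Mathlib

set_option autoImplicit false
open Finset

namespace Pool.Agent.TH355.FS

/-! ## Linear algebra -/

theorem rank_add_le_of_support {ι K : Type*} [Fintype ι] [DecidableEq ι] [Field K]
    (A B : Matrix ι ι K) (C : Finset ι) (hA : ∀ i j, j ∉ C → A i j = 0)
    (hB : ∀ j k, j ∉ C → B j k = 0) (hAB : A * B = 0) :
    A.rank + B.rank ≤ C.card := by
  classical
  let A' : Matrix ι C K := A.submatrix id Subtype.val
  let B' : Matrix C ι K := B.submatrix Subtype.val id
  let E : Matrix C ι K := Matrix.of fun c i => if (c : ι) = i then 1 else 0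
  have h1 : A = A' * E := by
    ext i j
    simp only [Matrix.mul_apply, A', E, Matrix.submatrix_apply, id, Matrix.of_apply]
    by_cases hj : j ∈ C
    · rw [Finset.sum_eq_single (⟨j, hj⟩ : C)]
      · simp
      · intro b _ hb
        have : (b : ι) ≠ j := fun h => hb (Subtype.ext h)
        simp [this]
      · simp
    · rw [hA i j hj, Finset.sum_eq_zero]
      intro b _
      have : (b : ι) ≠ j := fun h => hj (h ▸ b.2)
      simp [this]
  have h2 : B = E.transpose * B' := by
    ext j k
    simp only [Matrix.mul_apply, B', E, Matrix.submatrix_apply, id, Matrix.of_apply,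
      Matrix.transpose_apply]
    by_cases hj : j ∈ C
    · rw [Finset.sum_eq_single (⟨j, hj⟩ : C)]
      · simp
      · intro b _ hb
        have : (b : ι) ≠ j := fun h => hb (Subtype.ext h)
        simp [this]
      · simp
    · rw [hB j k hj, Finset.sum_eq_zero]
      intro b _
      have : (b : ι) ≠ j := fun h => hj (h ▸ b.2)
      simp [this]
  have h3 : A' * B' = 0 := by
    ext i k
    have := congrFun (congrFun hAB i) k
    simp only [Matrix.mul_apply, Matrix.zero_apply] at this ⊢
    rw [← this]
    simp only [A', B', Matrix.submatrix_apply, id]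
    rw [Finset.sum_coe_sort C (fun j => A i j * B j k)]
    apply Finset.sum_subset (Finset.subset_univ C)
    intro x _ hx
    rw [hA i x hx, zero_mul]
  have h4 := Matrix.rank_add_rank_le_card_of_mul_eq_zero h3
  have h5 : A.rank ≤ A'.rank := by
    calc A.rank = (A' * E).rank := by rw [← h1]
      _ ≤ _ := Matrix.rank_mul_le_left _ _
  have h6 : B.rank ≤ B'.rank := by
    calc B.rank = (E.transpose * B').rank := by rw [← h2]
      _ ≤ _ := Matrix.rank_mul_le_right _ _
  simp only [Fintype.card_coe] at h4
  omega

theorem rank_add_le_of_maps {ι K : Type*} [Fintype ι] [DecidableEq ι] [Field K]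
    (T A D : Matrix ι ι K) (p : (ι → K) →ₗ[K] (ι → K))
    (hA : ∀ y, ∃ z, A.mulVec y = T.mulVec z) (hA0 : ∀ y, p (A.mulVec y) = 0)
    (hD : ∀ y, ∃ z, D.mulVec y = p (T.mulVec z)) :
    A.rank + D.rank ≤ T.rank := by
  classical
  let U := LinearMap.range T.mulVecLin
  have h1 : LinearMap.range A.mulVecLin ≤ U ⊓ LinearMap.ker p := by
    rintro x ⟨y, rfl⟩
    refine ⟨?_, ?_⟩
    · obtain ⟨z, hz⟩ := hA y
      exact ⟨z, by simpa using hz.symm⟩
    · simpa using hA0 y
  have h2 : LinearMap.range D.mulVecLin ≤ Submodule.map p U := by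
    rintro x ⟨y, rfl⟩
    obtain ⟨z, hz⟩ := hD y
    exact ⟨T.mulVec z, ⟨z, by simp⟩, by simpa using hz.symm⟩
  have h3 := LinearMap.finrank_range_add_finrank_ker (p.domRestrict U)
  have h4 : LinearMap.range (p.domRestrict U) = Submodule.map p U := by
    ext x
    constructor
    · rintro ⟨y, rfl⟩
      exact ⟨y, y.2, rfl⟩
    · rintro ⟨y, hy, rfl⟩
      exact ⟨⟨y, hy⟩, rfl⟩
  have h5 : Module.finrank K (LinearMap.ker (p.domRestrict U)) =
      Module.finrank K (U ⊓ LinearMap.ker p : Submodule K (ι → K)) := by
    have : (U ⊓ LinearMap.ker p : Submodule K (ι → K)) =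
        Submodule.map U.subtype (LinearMap.ker (p.domRestrict U)) := by
      ext x
      constructor
      · rintro ⟨hx, hx'⟩
        exact ⟨⟨x, hx⟩, hx', rfl⟩
      · rintro ⟨y, hy, rfl⟩
        exact ⟨y.2, hy⟩
    rw [this]
    exact (Submodule.finrank_map_subtype_eq _ _).symm
  rw [h4, h5] at h3
  have h6 := Submodule.finrank_mono h1
  have h7 := Submodule.finrank_mono h2
  have : T.rank = Module.finrank K U := rfl
  have e1 : A.rank = Module.finrank K (LinearMap.range A.mulVecLin) := rfl
  have e2 : D.rank = Module.finrank K (LinearMap.range D.mulVecLin) := rfl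
  omega

/-! ## Clique chain complexes mod 2 -/

section
variable {n : ℕ} (H : SimpleGraph (Fin n))

open Classical in
/-- the cliques with `k` vertices inside `S` -/
noncomputable def cl (S : Finset (Fin n)) (k : ℕ) : Finset (Finset (Fin n)) :=
  Finset.univ.filter fun A => A ⊆ S ∧ H.IsClique (A : Set (Fin n)) ∧ A.card = k

open Classical in
/-- the boundary matrix in degree `k`, modulo 2 -/
noncomputable def bd (S : Finset (Fin n)) (k : ℕ) :
    Matrix (Finset (Fin n)) (Finset (Fin n)) (ZMod 2) :=
  Matrix.of fun A B => if B ⊆ S ∧ H.IsClique (B : Set (Fin n)) ∧ A ⊆ B ∧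
    B.card = A.card + 1 ∧ B.card = k then 1 else 0

theorem mem_cl {S A : Finset (Fin n)} {k : ℕ} :
    A ∈ cl H S k ↔ A ⊆ S ∧ H.IsClique (A : Set (Fin n)) ∧ A.card = k := by
  simp [cl]

theorem bd_zero (S : Finset (Fin n)) : bd H S 0 = 0 := by
  ext A B
  simp only [bd, Matrix.of_apply, Matrix.zero_apply, ite_eq_right_iff]
  rintro ⟨-, -, -, h1, h2⟩
  omega

theorem bd_large (S : Finset (Fin n)) {k : ℕ} (hk : n < k) : bd H S k = 0 := by
  ext A B
  simp only [bd, Matrix.of_apply, Matrix.zero_apply, ite_eq_right_iff]
  rintro ⟨-, -, -, h1, h2⟩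
  have := Finset.card_le_univ B
  simp at this
  omega

theorem cl_large (S : Finset (Fin n)) {k : ℕ} (hk : n < k) : cl H S k = ∅ := by
  ext B
  simp only [mem_cl, Finset.notMem_empty, iff_false, not_and]
  intro _ _ h
  have := Finset.card_le_univ B
  simp at this
  omega

theorem cl_zero (S : Finset (Fin n)) : (cl H S 0).card = 1 := by
  have : cl H S 0 = {∅} := by
    ext A
    simp only [mem_cl, Finset.mem_singleton, Finset.card_eq_zero]
    constructor
    · rintro ⟨-, -, h⟩; exact h
    · rintro rfl; simp
  rw [this]; simp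

theorem bd_mul_bd (S : Finset (Fin n)) (k : ℕ) : bd H S k * bd H S (k + 1) = 0 := by
  classical
  ext A C
  rw [Matrix.mul_apply, Matrix.zero_apply]
  simp only [bd, Matrix.of_apply, ← ite_and, mul_ite, mul_one, mul_zero]
  by_cases hC : C ⊆ S ∧ H.IsClique (C : Set (Fin n)) ∧ A ⊆ C ∧ C.card = A.card + 2 ∧ C.card = k + 1
  · obtain ⟨h1, h2, h3, h4, h5⟩ := hC
    have hcard : (C \ A).card = 2 := by
      rw [Finset.card_sdiff_of_subset h3]; omega
    obtain ⟨x, y, hxy, hCA⟩ := Finset.card_eq_two.1 hcard
    have hxC : x ∈ C ∧ x ∉ A := by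
      have : x ∈ C \ A := by rw [hCA]; simp
      simpa using this
    have hyC : y ∈ C ∧ y ∉ A := by
      have : y ∈ C \ A := by rw [hCA]; simp
      simpa using this
    have key : (Finset.univ.filter fun B : Finset (Fin n) =>
        ((C ⊆ S ∧ H.IsClique (C : Set (Fin n)) ∧ B ⊆ C ∧ C.card = B.card + 1 ∧ C.card = k + 1) ∧
        (B ⊆ S ∧ H.IsClique (B : Set (Fin n)) ∧ A ⊆ B ∧ B.card = A.card + 1 ∧ B.card = k)))
        = {insert x A, insert y A} := by
      ext B
      simp only [Finset.mem_filter, Finset.mem_univ, true_and, Finset.mem_insert,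
        Finset.mem_singleton]
      constructor
      · rintro ⟨⟨-, -, hBC, -, -⟩, ⟨-, -, hAB, hBA, -⟩⟩
        have h6 : (B \ A).card = 1 := by rw [Finset.card_sdiff_of_subset hAB]; omega
        obtain ⟨z, hz⟩ := Finset.card_eq_one.1 h6
        have hzB : z ∈ B ∧ z ∉ A := by
          have : z ∈ B \ A := by rw [hz]; simp
          simpa using this
        have hB : B = insert z A := by
          ext w
          simp only [Finset.mem_insert]
          constructor
          · intro hw
            by_cases hwA : w ∈ A
            · exact Or.inr hwA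
            · left
              have : w ∈ B \ A := by simp [hw, hwA]
              rw [hz] at this
              simpa using this
          · rintro (rfl | hw)
            · exact hzB.1
            · exact hAB hw
        have : z ∈ C \ A := by simp [hBC hzB.1, hzB.2]
        rw [hCA] at this
        simp only [Finset.mem_insert, Finset.mem_singleton] at this
        rcases this with rfl | rfl
        · exact Or.inl hB
        · exact Or.inr hB
      · have aux : ∀ z, z ∈ C → z ∉ A → ((C ⊆ S ∧ H.IsClique (C : Set (Fin n)) ∧ insert z A ⊆ C ∧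
            C.card = (insert z A).card + 1 ∧ C.card = k + 1) ∧
            (insert z A ⊆ S ∧ H.IsClique ((insert z A : Finset (Fin n)) : Set (Fin n)) ∧
            A ⊆ insert z A ∧ (insert z A).card = A.card + 1 ∧ (insert z A).card = k)) := by
          intro z hzC hzA
          have hsub : insert z A ⊆ C := Finset.insert_subset hzC h3
          have hc : (insert z A).card = A.card + 1 := Finset.card_insert_of_notMem hzA
          refine ⟨⟨h1, h2, hsub, by omega, h5⟩, ⟨hsub.trans h1, h2.subset (by exact_mod_cast hsub),
            Finset.subset_insert _ _, hc, by omega⟩⟩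
        rintro (rfl | rfl)
        · exact aux x hxC.1 hxC.2
        · exact aux y hyC.1 hyC.2
    rw [← Finset.sum_filter, Finset.sum_const]
    have h2' : (Finset.univ.filter fun B : Finset (Fin n) =>
        ((C ⊆ S ∧ H.IsClique (C : Set (Fin n)) ∧ B ⊆ C ∧ C.card = B.card + 1 ∧ C.card = k + 1) ∧
        (B ⊆ S ∧ H.IsClique (B : Set (Fin n)) ∧ A ⊆ B ∧ B.card = A.card + 1 ∧ B.card = k))).card
        = 2 := by
      rw [key]
      apply Finset.card_pair
      intro h
      have : x ∈ insert y A := by rw [← h]; simp
      simp [hxy, hxC.2] at this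
    rw [h2']
    decide
  · apply Finset.sum_eq_zero
    intro B _
    rw [if_neg]
    rintro ⟨⟨h1, h2, h3, h4, h5⟩, ⟨h6, h7, h8, h9, h10⟩⟩
    exact hC ⟨h1, h2, h8.trans h3, by omega, h5⟩

/-- reduced Betti number -/
noncomputable def bet (S : Finset (Fin n)) (k : ℕ) : ℤ :=
  ((cl H S k).card : ℤ) - (bd H S k).rank - (bd H S (k + 1)).rank

theorem bet_nonneg (S : Finset (Fin n)) (k : ℕ) : 0 ≤ bet H S k := by
  have := rank_add_le_of_support (bd H S k) (bd H S (k + 1)) (cl H S k) ?_ ?_ (bd_mul_bd H S k)
  · simp only [bet]; omega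
  · intro A B hB
    simp only [bd, Matrix.of_apply, ite_eq_right_iff]
    rintro ⟨h1, h2, -, -, h3⟩
    exact absurd ((mem_cl H).2 ⟨h1, h2, h3⟩) hB
  · intro A B hB
    simp only [bd, Matrix.of_apply, ite_eq_right_iff]
    rintro ⟨h1, h2, h4, h3, h5⟩
    exact absurd ((mem_cl H).2 ⟨h4.trans h1, h2.subset (by exact_mod_cast h4), by omega⟩) hB

/-- the neighbours of `v` inside `S` -/
noncomputable def nbr (S : Finset (Fin n)) (v : Fin n) : Finset (Fin n) := by
  classical exact S.filter fun w => H.Adj v w

theorem mem_nbr {S : Finset (Fin n)} {v w : Fin n} : w ∈ nbr H S v ↔ w ∈ S ∧ H.Adj v w := by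
  classical
  simp [nbr]

theorem clique_insert {v : Fin n} {B : Finset (Fin n)} (hv : v ∉ B) :
    H.IsClique ((insert v B : Finset (Fin n)) : Set (Fin n)) ↔
      H.IsClique (B : Set (Fin n)) ∧ ∀ w ∈ B, H.Adj v w := by
  rw [Finset.coe_insert, SimpleGraph.isClique_insert]
  constructor
  · rintro ⟨h1, h2⟩
    exact ⟨h1, fun w hw => h2 w (by exact_mod_cast hw) (fun h => hv (h ▸ hw))⟩
  · rintro ⟨h1, h2⟩
    exact ⟨h1, fun w hw _ => h2 w (by exact_mod_cast hw)⟩

theorem cl_card_succ (S : Finset (Fin n)) {v : Fin n} (hv : v ∈ S) (k : ℕ) :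
    (cl H S (k + 1)).card = (cl H (S.erase v) (k + 1)).card + (cl H (nbr H S v) k).card := by
  classical
  have h1 : cl H S (k + 1) = (cl H (S.erase v) (k + 1)) ∪ (cl H (nbr H S v) k).image (insert v) := by
    ext A
    simp only [Finset.mem_union, Finset.mem_image, mem_cl]
    constructor
    · rintro ⟨h1, h2, h3⟩
      by_cases hvA : v ∈ A
      · right
        refine ⟨A.erase v, ⟨?_, ?_, ?_⟩, Finset.insert_erase hvA⟩
        · intro w hw
          rw [mem_nbr]
          rw [Finset.mem_erase] at hw
          exact ⟨h1 hw.2, h2 (by exact_mod_cast hvA) (by exact_mod_cast hw.2) hw.1.symm⟩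
        · exact h2.subset (by exact_mod_cast Finset.erase_subset _ _)
        · rw [Finset.card_erase_of_mem hvA, h3]; rfl
      · left
        refine ⟨?_, h2, h3⟩
        intro w hw
        rw [Finset.mem_erase]
        exact ⟨fun h => hvA (h ▸ hw), h1 hw⟩
    · rintro (⟨h1, h2, h3⟩ | ⟨B, ⟨h1, h2, h3⟩, rfl⟩)
      · exact ⟨h1.trans (Finset.erase_subset _ _), h2, h3⟩
      · have hvB : v ∉ B := fun h => by
          have := (mem_nbr H).1 (h1 h)
          exact H.irrefl this.2
        refine ⟨?_, (clique_insert H hvB).2 ⟨h2, fun w hw => ((mem_nbr H).1 (h1 hw)).2⟩, ?_⟩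
        · apply Finset.insert_subset hv
          intro w hw
          exact ((mem_nbr H).1 (h1 hw)).1
        · rw [Finset.card_insert_of_notMem hvB, h3]
  rw [h1, Finset.card_union_of_disjoint, Finset.card_image_of_injOn]
  · intro B hB C hC hBC
    have hB' : v ∉ B := fun h => by
      have := (mem_nbr H).1 (((mem_cl H).1 (by exact_mod_cast hB)).1 h)
      exact H.irrefl this.2
    have hC' : v ∉ C := fun h => by
      have := (mem_nbr H).1 (((mem_cl H).1 (by exact_mod_cast hC)).1 h)
      exact H.irrefl this.2
    have := congrArg (fun X => Finset.erase X v) hBC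
    simpa [Finset.erase_insert hB', Finset.erase_insert hC'] using this
  · rw [Finset.disjoint_left]
    intro A hA hA'
    rw [Finset.mem_image] at hA'
    obtain ⟨B, -, rfl⟩ := hA'
    have := ((mem_cl H).1 hA).1 (Finset.mem_insert_self v B)
    simp at this

theorem rank_split (S : Finset (Fin n)) {v : Fin n} (hv : v ∈ S) (k : ℕ) :
    (bd H (S.erase v) (k + 1)).rank + (bd H (nbr H S v) k).rank ≤ (bd H S (k + 1)).rank := by
  classical
  let p : (Finset (Fin n) → ZMod 2) →ₗ[ZMod 2] (Finset (Fin n) → ZMod 2) :=
    { toFun := fun x A => if v ∈ A then 0 else x (insert v A)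
      map_add' := by
        intro x y; ext A; by_cases h : v ∈ A <;> simp [h]
      map_smul' := by
        intro c x; ext A; by_cases h : v ∈ A <;> simp [h] }
  apply rank_add_le_of_maps (bd H S (k + 1)) _ _ p
  · intro y
    refine ⟨fun B => if v ∈ B then 0 else y B, ?_⟩
    ext A
    simp only [Matrix.mulVec, dotProduct]
    apply Finset.sum_congr rfl
    intro B _
    by_cases hvB : v ∈ B
    · simp only [hvB, if_true, mul_zero]
      simp only [bd, Matrix.of_apply]
      rw [if_neg, zero_mul]
      rintro ⟨h, -⟩
      simpa using h hvB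
    · simp only [hvB, if_false]
      congr 1
      simp only [bd, Matrix.of_apply]
      congr 1
      simp only [eq_iff_iff, and_congr_left_iff]
      intro _
      constructor
      · intro h; exact h.trans (Finset.erase_subset _ _)
      · intro h w hw
        rw [Finset.mem_erase]
        exact ⟨fun h' => hvB (h' ▸ hw), h hw⟩
  · intro y
    ext A
    simp only [p, LinearMap.coe_mk, AddHom.coe_mk, Pi.zero_apply, ite_eq_left_iff]
    intro _
    simp only [Matrix.mulVec, dotProduct]
    apply Finset.sum_eq_zero
    intro B _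
    simp only [bd, Matrix.of_apply]
    rw [if_neg, zero_mul]
    rintro ⟨h, -, h', -⟩
    simpa using h (h' (Finset.mem_insert_self v A))
  · intro y
    refine ⟨fun B => if v ∈ B then y (B.erase v) else 0, ?_⟩
    ext A
    simp only [p, LinearMap.coe_mk, AddHom.coe_mk]
    by_cases hvA : v ∈ A
    · simp only [hvA, if_true, Matrix.mulVec, dotProduct]
      apply Finset.sum_eq_zero
      intro B _
      simp only [bd, Matrix.of_apply]
      rw [if_neg, zero_mul]
      rintro ⟨h, -, h', -⟩
      exact H.irrefl ((mem_nbr H).1 (h (h' hvA))).2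
    · simp only [hvA, if_false, Matrix.mulVec, dotProduct]
      -- right side: sum over B containing v
      have hR : ∑ B : Finset (Fin n), bd H S (k + 1) (insert v A) B *
          (if v ∈ B then y (B.erase v) else 0) =
          ∑ B ∈ Finset.univ.filter (fun B : Finset (Fin n) => v ∈ B),
            bd H S (k + 1) (insert v A) B * y (B.erase v) := by
        rw [Finset.sum_filter]
        apply Finset.sum_congr rfl
        intro B _
        by_cases h : v ∈ B <;> simp [h]
      have hL : ∑ B : Finset (Fin n), bd H (nbr H S v) k A B * y B =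
          ∑ B ∈ Finset.univ.filter (fun B : Finset (Fin n) => v ∉ B),
            bd H (nbr H S v) k A B * y B := by
        rw [Finset.sum_filter]
        apply Finset.sum_congr rfl
        intro B _
        by_cases h : v ∈ B
        · simp only [h, not_true, if_false]
          simp only [bd, Matrix.of_apply]
          rw [if_neg, zero_mul]
          rintro ⟨h', -⟩
          exact H.irrefl ((mem_nbr H).1 (h' h)).2
        · simp [h]
      rw [hL, hR]
      refine Finset.sum_nbij' (fun B => insert v B) (fun B => B.erase v) ?_ ?_ ?_ ?_ ?_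
      · intro B hB; simp
      · intro B hB; simp
      · intro B hB
        rw [Finset.mem_filter] at hB
        exact Finset.erase_insert hB.2
      · intro B hB
        rw [Finset.mem_filter] at hB
        exact Finset.insert_erase hB.2
      · intro B hB
        rw [Finset.mem_filter] at hB
        replace hB := hB.2
        rw [Finset.erase_insert hB]
        congr 1
        simp only [bd, Matrix.of_apply]
        congr 1
        simp only [eq_iff_iff]
        rw [clique_insert H hB, Finset.card_insert_of_notMem hB, Finset.card_insert_of_notMem hvA]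
        constructor
        · rintro ⟨h1, h2, h3, h4, h5⟩
          refine ⟨?_, ⟨h2, fun w hw => ((mem_nbr H).1 (h1 hw)).2⟩, ?_, by omega, by omega⟩
          · exact Finset.insert_subset hv (fun w hw => ((mem_nbr H).1 (h1 hw)).1)
          · exact Finset.insert_subset_insert v h3
        · rintro ⟨h1, ⟨h2, h2'⟩, h3, h4, h5⟩
          refine ⟨fun w hw => (mem_nbr H).2 ⟨h1 (Finset.mem_insert_of_mem hw), h2' w hw⟩, h2, ?_,
            by omega, by omega⟩
          intro w hw
          have := h3 (Finset.mem_insert_of_mem hw)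
          rw [Finset.mem_insert] at this
          rcases this with rfl | h
          · exact absurd hw hvA
          · exact h

theorem bet_succ_le (S : Finset (Fin n)) {v : Fin n} (hv : v ∈ S) (k : ℕ) :
    bet H S (k + 1) ≤ bet H (S.erase v) (k + 1) + bet H (nbr H S v) k := by
  have h1 := cl_card_succ H S hv k
  have h2 := rank_split H S hv k
  have h3 := rank_split H S hv (k + 1)
  simp only [bet]
  omega

theorem bet_zero_le (S : Finset (Fin n)) {v : Fin n} (hv : v ∈ S) :
    bet H S 0 ≤ bet H (S.erase v) 0 := by
  have h1 := cl_zero H S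
  have h1' := cl_zero H (S.erase v)
  have h2 := rank_split H S hv 0
  simp only [bet, bd_zero, Matrix.rank_zero]
  omega

/-- all reduced Betti numbers vanish -/
def Acyc (S : Finset (Fin n)) : Prop := ∀ k, bet H S k = 0

/-- the reduced Betti numbers are those of a sphere of dimension `d - 1` -/
def Sph (S : Finset (Fin n)) (d : ℕ) : Prop := ∀ k, bet H S k = if k = d then 1 else 0

theorem acyc_of_split (S : Finset (Fin n)) {v : Fin n} (hv : v ∈ S)
    (h1 : Acyc H (S.erase v)) (h2 : Acyc H (nbr H S v)) : Acyc H S := by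
  intro k
  have h0 := bet_nonneg H S k
  cases k with
  | zero =>
    have := bet_zero_le H S hv
    rw [h1 0] at this
    omega
  | succ k =>
    have := bet_succ_le H S hv k
    rw [h1, h2] at this
    omega

theorem bet_singleton (u : Fin n) (k : ℕ) : bet H {u} k = 0 := by
  classical
  have h0 := bet_nonneg H {u} k
  have hr : 1 ≤ (bd H {u} 1).rank := by
    by_contra hcon
    have h2 : (bd H {u} 1).rank = 0 := by omega
    have h3 : LinearMap.range (bd H {u} 1).mulVecLin = ⊥ := by
      apply Submodule.finrank_eq_zero.1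
      exact h2
    have h4 : (bd H {u} 1).mulVecLin = 0 := LinearMap.range_eq_bot.1 h3
    have h5 := congrFun (LinearMap.congr_fun h4 (Pi.single {u} 1)) ∅
    simp [bd] at h5
  have hc : ∀ k, (cl H {u} (k + 1)).card = (cl H (({u} : Finset (Fin n)).erase u) (k + 1)).card +
      (cl H (nbr H {u} u) k).card := fun k => cl_card_succ H {u} (by simp) k
  have hn : nbr H {u} u = ∅ := by
    ext w
    rw [mem_nbr]
    simp only [Finset.mem_singleton, Finset.notMem_empty, iff_false, not_and]
    rintro rfl
    exact H.irrefl
  have hce : ∀ k, (cl H ∅ (k + 1)).card = 0 := by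
    intro k
    rw [Finset.card_eq_zero]
    ext A
    simp only [mem_cl, Finset.notMem_empty, iff_false, not_and]
    intro h _ h'
    rw [Finset.subset_empty.1 h] at h'
    simp at h'
  have he : ({u} : Finset (Fin n)).erase u = ∅ := by simp
  rcases k with _ | _ | k
  · simp only [bet, cl_zero, bd_zero, Matrix.rank_zero, zero_add] at h0 ⊢
    omega
  · have := hc 0
    rw [hn, he, hce, cl_zero] at this
    simp only [bet, zero_add] at h0 this ⊢
    omega
  · have := hc (k + 1)
    rw [hn, he, hce, hce] at this
    simp only [bet] at h0 ⊢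
    omega

theorem acyc_of_cone (S : Finset (Fin n)) {u : Fin n} (hu : u ∈ S)
    (h : ∀ w ∈ S, w ≠ u → H.Adj u w) : Acyc H S := by
  classical
  induction hm : S.card using Nat.strong_induction_on generalizing S with
  | _ m ih =>
    by_cases hS : ∃ v ∈ S, v ≠ u
    · obtain ⟨v, hvS, hvu⟩ := hS
      apply acyc_of_split H S hvS
      · refine ih (S.erase v).card ?_ (S.erase v) ?_ ?_ rfl
        · rw [Finset.card_erase_of_mem hvS]
          have := Finset.card_pos.2 ⟨v, hvS⟩
          omega
        · rw [Finset.mem_erase]; exact ⟨hvu.symm, hu⟩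
        · intro w hw hwu
          exact h w (Finset.mem_of_mem_erase hw) hwu
      · refine ih (nbr H S v).card ?_ (nbr H S v) ?_ ?_ rfl
        · have : nbr H S v ⊂ S := by
            rw [Finset.ssubset_iff_of_subset (fun w hw => ((mem_nbr H).1 hw).1)]
            exact ⟨v, hvS, fun h' => H.irrefl ((mem_nbr H).1 h').2⟩
          rw [← hm]
          exact Finset.card_lt_card this
        · rw [mem_nbr]; exact ⟨hu, (h v hvS hvu).symm⟩
        · intro w hw hwu
          exact h w ((mem_nbr H).1 hw).1 hwu
    · push Not at hS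
      have : S = {u} := by
        ext w
        simp only [Finset.mem_singleton]
        constructor
        · exact hS w
        · rintro rfl; exact hu
      rw [this]
      exact bet_singleton H u

/-- Euler characteristic -/
noncomputable def chi (S : Finset (Fin n)) : ℤ :=
  ∑ k ∈ Finset.range (n + 2), (-1) ^ k * ((cl H S k).card : ℤ)

theorem chi_eq (S : Finset (Fin n)) :
    chi H S = ∑ k ∈ Finset.range (n + 2), (-1) ^ k * bet H S k := by
  have key : ∀ N : ℕ, ∑ k ∈ Finset.range N, (-1 : ℤ) ^ k *
      (((bd H S k).rank : ℤ) + (bd H S (k + 1)).rank) =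
      (bd H S 0).rank - (-1) ^ N * (bd H S N).rank := by
    intro N
    induction N with
    | zero => simp
    | succ N ih =>
      rw [Finset.sum_range_succ, ih, pow_succ]
      ring
  have h1 := key (n + 2)
  rw [bd_zero, bd_large H S (show n < n + 2 by omega), Matrix.rank_zero] at h1
  simp only [Nat.cast_zero, mul_zero, sub_zero] at h1
  have h2 : chi H S = ∑ k ∈ Finset.range (n + 2), (-1) ^ k * bet H S k +
      ∑ k ∈ Finset.range (n + 2), (-1 : ℤ) ^ k *
      (((bd H S k).rank : ℤ) + (bd H S (k + 1)).rank) := by
    rw [← Finset.sum_add_distrib, chi]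
    apply Finset.sum_congr rfl
    intro k _
    simp only [bet]
    ring
  rw [h2, h1, add_zero]

theorem chi_split (S : Finset (Fin n)) {v : Fin n} (hv : v ∈ S) :
    chi H S = chi H (S.erase v) - chi H (nbr H S v) := by
  simp only [chi]
  rw [Finset.sum_range_succ' _ (n + 1), Finset.sum_range_succ' _ (n + 1),
    Finset.sum_range_succ _ (n + 1)]
  rw [cl_large H (nbr H S v) (show n < n + 1 by omega)]
  simp only [cl_zero, Finset.card_empty, Nat.cast_zero, mul_zero, add_zero]
  have : ∀ k, (-1 : ℤ) ^ (k + 1) * ((cl H S (k + 1)).card : ℤ) =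
      (-1) ^ (k + 1) * ((cl H (S.erase v) (k + 1)).card : ℤ) -
      (-1) ^ k * ((cl H (nbr H S v) k).card : ℤ) := by
    intro k
    rw [cl_card_succ H S hv k, pow_succ]
    push_cast
    ring
  simp only [this, Finset.sum_sub_distrib]
  ring

theorem chi_acyc {S : Finset (Fin n)} (h : Acyc H S) : chi H S = 0 := by
  rw [chi_eq]
  apply Finset.sum_eq_zero
  intro k _
  rw [h k, mul_zero]

theorem chi_sph {S : Finset (Fin n)} {d : ℕ} (h : Sph H S d) (hd : d ≤ n + 1) :
    chi H S = (-1) ^ d := by
  rw [chi_eq, Finset.sum_eq_single d]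
  · rw [h d]; simp
  · intro k _ hk
    rw [h k]; simp [hk]
  · intro h'
    simp at h'
    omega

theorem sph_empty : Sph H (∅ : Finset (Fin n)) 0 := by
  intro k
  have hce : ∀ k, (cl H ∅ (k + 1)).card = 0 := by
    intro k
    rw [Finset.card_eq_zero]
    ext A
    simp only [mem_cl, Finset.notMem_empty, iff_false, not_and]
    intro h _ h'
    rw [Finset.subset_empty.1 h] at h'
    simp at h'
  have hb : ∀ k, bd H ∅ k = 0 := by
    intro k
    ext A B
    simp only [bd, Matrix.of_apply, Matrix.zero_apply, ite_eq_right_iff]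
    rintro ⟨h, -, -, h', -⟩
    rw [Finset.subset_empty.1 h] at h'
    simp at h'
  cases k with
  | zero => simp [bet, cl_zero, hb]
  | succ k => simp [bet, hce, hb]

theorem sph_of_split (S : Finset (Fin n)) {v : Fin n} (hv : v ∈ S) {d : ℕ} (hd : d ≤ n)
    (h1 : Acyc H (S.erase v)) (h2 : Sph H (nbr H S v) d) : Sph H S (d + 1) := by
  have hle : ∀ k, bet H S k ≤ if k = d + 1 then 1 else 0 := by
    intro k
    cases k with
    | zero =>
      have := bet_zero_le H S hv
      rw [h1 0] at this
      simpa using this
    | succ k =>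
      have := bet_succ_le H S hv k
      rw [h1, h2, zero_add] at this
      simpa using this
  have hz : ∀ k, k ≠ d + 1 → bet H S k = 0 := by
    intro k hk
    have a := hle k
    have b := bet_nonneg H S k
    rw [if_neg hk] at a
    omega
  have hchi : chi H S = (-1) ^ (d + 1) * bet H S (d + 1) := by
    rw [chi_eq, Finset.sum_eq_single (d + 1)]
    · intro k _ hk
      rw [hz k hk, mul_zero]
    · intro h'
      simp at h'
      omega
  rw [chi_split H S hv, chi_acyc H h1, chi_sph H h2 (by omega), pow_succ] at hchi
  have hb : bet H S (d + 1) = 1 := by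
    have hne : ((-1 : ℤ) ^ d) ≠ 0 := pow_ne_zero _ (by norm_num)
    have : (-1 : ℤ) ^ d * bet H S (d + 1) = (-1 : ℤ) ^ d * 1 := by linarith
    exact mul_left_cancel₀ hne this
  intro k
  by_cases hk : k = d + 1
  · rw [if_pos hk, hk, hb]
  · rw [if_neg hk, hz k hk]

end

end Pool.Agent.TH355.FS
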