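import Pool.Agent.TH355.FS.PInst

set_option autoImplicit false
set_option maxRecDepth 100000
open Finset

namespace Pool.Agent.TH355.FS

theorem n346_0 : fnor (fent 346) 0 = -3 := by decide +kernel
theorem n346_1 : fnor (fent 346) 1 = 3 := by decide +kernel
theorem n346_2 : fnor (fent 346) 2 = -3 := by decide +kernel
theorem n346_3 : fnor (fent 346) 3 = 0 := by decide +kernel
theorem n346_4 : fnor (fent 346) 4 = -2 := by decide +kernel
theorem n346_5 : fnor (fent 346) 5 = 2 := by decide +kernel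
theorem n318_0 : fnor (fent 318) 0 = 0 := by decide +kernel
theorem n318_1 : fnor (fent 318) 1 = 2 := by decide +kernel
theorem n318_2 : fnor (fent 318) 2 = 1 := by decide +kernel
theorem n318_3 : fnor (fent 318) 3 = 0 := by decide +kernel
theorem n318_4 : fnor (fent 318) 4 = -2 := by decide +kernel
theorem n318_5 : fnor (fent 318) 5 = 0 := by decide +kernel
theorem n377_0 : fnor (fent 377) 0 = 0 := by decide +kernel
theorem n377_1 : fnor (fent 377) 1 = -4 := by decide +kernel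
theorem n377_2 : fnor (fent 377) 2 = -2 := by decide +kernel
theorem n377_3 : fnor (fent 377) 3 = -2 := by decide +kernel
theorem n377_4 : fnor (fent 377) 4 = 4 := by decide +kernel
theorem n377_5 : fnor (fent 377) 5 = 1 := by decide +kernel
theorem n178_0 : fnor (fent 178) 0 = 1 := by decide +kernel
theorem n178_1 : fnor (fent 178) 1 = 0 := by decide +kernel
theorem n178_2 : fnor (fent 178) 2 = 1 := by decide +kernel
theorem n178_3 : fnor (fent 178) 3 = 1 := by decide +kernel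
theorem n178_4 : fnor (fent 178) 4 = 0 := by decide +kernel
theorem n178_5 : fnor (fent 178) 5 = 0 := by decide +kernel
theorem n45_0 : fnor (fent 45) 0 = 3 := by decide +kernel
theorem n45_1 : fnor (fent 45) 1 = 4 := by decide +kernel
theorem n45_2 : fnor (fent 45) 2 = -2 := by decide +kernel
theorem n45_3 : fnor (fent 45) 3 = 0 := by decide +kernel
theorem n45_4 : fnor (fent 45) 4 = 0 := by decide +kernel
theorem n45_5 : fnor (fent 45) 5 = -3 := by decide +kernel
theorem n136_0 : fnor (fent 136) 0 = 0 := by decide +kernel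
theorem n136_1 : fnor (fent 136) 1 = 0 := by decide +kernel
theorem n136_2 : fnor (fent 136) 2 = 1 := by decide +kernel
theorem n136_3 : fnor (fent 136) 3 = 1 := by decide +kernel
theorem n136_4 : fnor (fent 136) 4 = 1 := by decide +kernel
theorem n136_5 : fnor (fent 136) 5 = 0 := by decide +kernel
theorem n334_0 : fnor (fent 334) 0 = -2 := by decide +kernel
theorem n334_1 : fnor (fent 334) 1 = -2 := by decide +kernel
theorem n334_2 : fnor (fent 334) 2 = -1 := by decide +kernel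
theorem n334_3 : fnor (fent 334) 3 = -4 := by decide +kernel
theorem n334_4 : fnor (fent 334) 4 = -4 := by decide +kernel
theorem n334_5 : fnor (fent 334) 5 = 0 := by decide +kernel

theorem fl_nonpos_iff {i : Fin 389} {x : EuclideanSpace ℝ (Fin 6)} (h : fl i x ≤ 0) :
    ∑ j : Fin 6, ((fnor (fent i) j : ℤ) : ℝ) * x j ≤ 0 := by
  have h3 : (0 : ℝ) < ((frhs (fent i) : ℤ) : ℝ) := by exact_mod_cast rhs_pos i
  have h4 : (∑ j : Fin 6, ((fnor (fent i) j : ℤ) : ℝ) * x j) / ((frhs (fent i) : ℤ) : ℝ) ≤ 0 := h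
  rwa [div_le_iff₀ h3, zero_mul] at h4

theorem fl_bounded (x : EuclideanSpace ℝ (Fin 6)) (hx0 : x ≠ 0) : ∃ i, 0 < fl i x := by
  by_contra hcon
  push Not at hcon
  apply hx0
  have hx : ∀ i, fl i x ≤ 0 := hcon
  have h346 : (-3 : ℝ) * x 0 + (3 : ℝ) * x 1 + (-3 : ℝ) * x 2 + (0 : ℝ) * x 3 + (-2 : ℝ) * x 4 + (2 : ℝ) * x 5 ≤ 0 := by
    have h := fl_nonpos_iff (i := ⟨346, by norm_num⟩) (hx ⟨346, by norm_num⟩)
    rw [Fin.sum_univ_six] at h
    simp only at h
    rw [show ((0 : Fin 6) : ℕ) = 0 from rfl, show ((1 : Fin 6) : ℕ) = 1 from rfl,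
      show ((2 : Fin 6) : ℕ) = 2 from rfl, show ((3 : Fin 6) : ℕ) = 3 from rfl,
      show ((4 : Fin 6) : ℕ) = 4 from rfl, show ((5 : Fin 6) : ℕ) = 5 from rfl,
      n346_0, n346_1, n346_2, n346_3, n346_4, n346_5] at h
    push_cast at h
    linarith
  have h318 : (0 : ℝ) * x 0 + (2 : ℝ) * x 1 + (1 : ℝ) * x 2 + (0 : ℝ) * x 3 + (-2 : ℝ) * x 4 + (0 : ℝ) * x 5 ≤ 0 := by
    have h := fl_nonpos_iff (i := ⟨318, by norm_num⟩) (hx ⟨318, by norm_num⟩)
    rw [Fin.sum_univ_six] at h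
    simp only at h
    rw [show ((0 : Fin 6) : ℕ) = 0 from rfl, show ((1 : Fin 6) : ℕ) = 1 from rfl,
      show ((2 : Fin 6) : ℕ) = 2 from rfl, show ((3 : Fin 6) : ℕ) = 3 from rfl,
      show ((4 : Fin 6) : ℕ) = 4 from rfl, show ((5 : Fin 6) : ℕ) = 5 from rfl,
      n318_0, n318_1, n318_2, n318_3, n318_4, n318_5] at h
    push_cast at h
    linarith
  have h377 : (0 : ℝ) * x 0 + (-4 : ℝ) * x 1 + (-2 : ℝ) * x 2 + (-2 : ℝ) * x 3 + (4 : ℝ) * x 4 + (1 : ℝ) * x 5 ≤ 0 := by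
    have h := fl_nonpos_iff (i := ⟨377, by norm_num⟩) (hx ⟨377, by norm_num⟩)
    rw [Fin.sum_univ_six] at h
    simp only at h
    rw [show ((0 : Fin 6) : ℕ) = 0 from rfl, show ((1 : Fin 6) : ℕ) = 1 from rfl,
      show ((2 : Fin 6) : ℕ) = 2 from rfl, show ((3 : Fin 6) : ℕ) = 3 from rfl,
      show ((4 : Fin 6) : ℕ) = 4 from rfl, show ((5 : Fin 6) : ℕ) = 5 from rfl,
      n377_0, n377_1, n377_2, n377_3, n377_4, n377_5] at h
    push_cast at h
    linarith
  have h178 : (1 : ℝ) * x 0 + (0 : ℝ) * x 1 + (1 : ℝ) * x 2 + (1 : ℝ) * x 3 + (0 : ℝ) * x 4 + (0 : ℝ) * x 5 ≤ 0 := by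
    have h := fl_nonpos_iff (i := ⟨178, by norm_num⟩) (hx ⟨178, by norm_num⟩)
    rw [Fin.sum_univ_six] at h
    simp only at h
    rw [show ((0 : Fin 6) : ℕ) = 0 from rfl, show ((1 : Fin 6) : ℕ) = 1 from rfl,
      show ((2 : Fin 6) : ℕ) = 2 from rfl, show ((3 : Fin 6) : ℕ) = 3 from rfl,
      show ((4 : Fin 6) : ℕ) = 4 from rfl, show ((5 : Fin 6) : ℕ) = 5 from rfl,
      n178_0, n178_1, n178_2, n178_3, n178_4, n178_5] at h
    push_cast at h
    linarith
  have h45 : (3 : ℝ) * x 0 + (4 : ℝ) * x 1 + (-2 : ℝ) * x 2 + (0 : ℝ) * x 3 + (0 : ℝ) * x 4 + (-3 : ℝ) * x 5 ≤ 0 := by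
    have h := fl_nonpos_iff (i := ⟨45, by norm_num⟩) (hx ⟨45, by norm_num⟩)
    rw [Fin.sum_univ_six] at h
    simp only at h
    rw [show ((0 : Fin 6) : ℕ) = 0 from rfl, show ((1 : Fin 6) : ℕ) = 1 from rfl,
      show ((2 : Fin 6) : ℕ) = 2 from rfl, show ((3 : Fin 6) : ℕ) = 3 from rfl,
      show ((4 : Fin 6) : ℕ) = 4 from rfl, show ((5 : Fin 6) : ℕ) = 5 from rfl,
      n45_0, n45_1, n45_2, n45_3, n45_4, n45_5] at h
    push_cast at h
    linarith
  have h136 : (0 : ℝ) * x 0 + (0 : ℝ) * x 1 + (1 : ℝ) * x 2 + (1 : ℝ) * x 3 + (1 : ℝ) * x 4 + (0 : ℝ) * x 5 ≤ 0 := by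
    have h := fl_nonpos_iff (i := ⟨136, by norm_num⟩) (hx ⟨136, by norm_num⟩)
    rw [Fin.sum_univ_six] at h
    simp only at h
    rw [show ((0 : Fin 6) : ℕ) = 0 from rfl, show ((1 : Fin 6) : ℕ) = 1 from rfl,
      show ((2 : Fin 6) : ℕ) = 2 from rfl, show ((3 : Fin 6) : ℕ) = 3 from rfl,
      show ((4 : Fin 6) : ℕ) = 4 from rfl, show ((5 : Fin 6) : ℕ) = 5 from rfl,
      n136_0, n136_1, n136_2, n136_3, n136_4, n136_5] at h
    push_cast at h
    linarith
  have h334 : (-2 : ℝ) * x 0 + (-2 : ℝ) * x 1 + (-1 : ℝ) * x 2 + (-4 : ℝ) * x 3 + (-4 : ℝ) * x 4 + (0 : ℝ) * x 5 ≤ 0 := by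
    have h := fl_nonpos_iff (i := ⟨334, by norm_num⟩) (hx ⟨334, by norm_num⟩)
    rw [Fin.sum_univ_six] at h
    simp only at h
    rw [show ((0 : Fin 6) : ℕ) = 0 from rfl, show ((1 : Fin 6) : ℕ) = 1 from rfl,
      show ((2 : Fin 6) : ℕ) = 2 from rfl, show ((3 : Fin 6) : ℕ) = 3 from rfl,
      show ((4 : Fin 6) : ℕ) = 4 from rfl, show ((5 : Fin 6) : ℕ) = 5 from rfl,
      n334_0, n334_1, n334_2, n334_3, n334_4, n334_5] at h
    push_cast at h
    linarith
  ext j
  rw [PiLp.zero_apply]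
  fin_cases j
  · show x 0 = 0
    apply le_antisymm <;> linarith
  · show x 1 = 0
    apply le_antisymm <;> linarith
  · show x 2 = 0
    apply le_antisymm <;> linarith
  · show x 3 = 0
    apply le_antisymm <;> linarith
  · show x 4 = 0
    apply le_antisymm <;> linarith
  · show x 5 = 0
    apply le_antisymm <;> linarith

/-- the polytope -/
noncomputable def PD : PolyData 6 (Fin 24) (Fin 389) where
  p := pt
  a := fl
  F := FF
  on_facet := fl_on
  off_facet := fl_off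
  nbr := by
    intro i j hj
    obtain ⟨h1, h2, h3⟩ := FF_spec i
    obtain ⟨j', hj', h4⟩ := h3 j hj
    have hj'e : j' ∉ (FF i).erase j := fun h => hj' (Finset.mem_of_mem_erase h)
    obtain ⟨i', hi'⟩ := clique6 (insert j' ((FF i).erase j))
      ((clique_insert H24 hj'e).2 ⟨h2.subset (by exact_mod_cast Finset.erase_subset _ _),
        fun w hw => (h4 w (Finset.mem_of_mem_erase hw) (Finset.ne_of_mem_erase hw)).symm⟩)
      (by rw [Finset.card_insert_of_notMem hj'e, Finset.card_erase_of_mem hj, h1])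
    refine ⟨i', fun k hk hkj => ?_, ?_⟩
    · rw [hi']
      exact Finset.mem_insert_of_mem (Finset.mem_erase.2 ⟨hkj, hk⟩)
    · rw [hi', Finset.mem_insert, Finset.mem_erase]
      rintro (h | h)
      · exact hj' (h ▸ hj)
      · exact h.1 rfl
  card := fun i => (FF_spec i).1
  bounded := fl_bounded

theorem hcov : ∀ k, ∃ i, k ∈ PD.F i := by
  intro k
  obtain ⟨i, hi⟩ := clique_sub {k} (by simp)
  exact ⟨i, hi (by simp)⟩

end Pool.Agent.TH355.FS
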