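import Pool.Agent.TH355.FS.PData

set_option autoImplicit false
set_option maxRecDepth 100000
open Finset

namespace Pool.Agent.TH355.FS

section
variable {n : ℕ} (H : SimpleGraph (Fin n)) (nb : ℕ → ℕ)
  (hH : ∀ i j : Fin n, H.Adj i j ↔ Nat.testBit (nb i) j = true)

theorem pc_sound {m i : ℕ} (hi : i ≤ n) : (toS n m i).card = pc m i := by
  induction i with
  | zero =>
    have : toS n m 0 = ∅ := by
      ext x; simp [mem_toS]
    rw [this]; rfl
  | succ i ih =>
    have hin : i < n := by omega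
    have h : pc m (i + 1) = Bool.rec (pc m i) (Nat.succ (pc m i)) (tb m i) := rfl
    rw [h, tb_eq]
    by_cases hb : Nat.testBit m i = true
    · rw [hb]
      have e1 : toS n m (i + 1) = insert ⟨i, hin⟩ (toS n m i) := by
        ext x
        rw [Finset.mem_insert, mem_toS, mem_toS, Fin.ext_iff]
        simp only
        constructor
        · rintro ⟨h1, h2⟩
          by_cases hx : (x : ℕ) = i
          · exact Or.inl hx
          · exact Or.inr ⟨by omega, h2⟩
        · rintro (h1 | ⟨h1, h2⟩)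
          · exact ⟨by omega, by rw [h1]; exact hb⟩
          · exact ⟨by omega, h2⟩
      rw [e1, Finset.card_insert_of_notMem, ih (by omega)]
      rw [mem_toS]
      simp
    · have hb' : Nat.testBit m i = false := by simpa using hb
      rw [hb']
      have e1 : toS n m (i + 1) = toS n m i := by
        ext x
        rw [mem_toS, mem_toS]
        constructor
        · rintro ⟨h1, h2⟩
          refine ⟨?_, h2⟩
          have : (x : ℕ) ≠ i := by
            intro hxi
            rw [hxi] at h2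
            exact hb h2
          omega
        · rintro ⟨h1, h2⟩; exact ⟨by omega, h2⟩
      rw [e1, ih (by omega)]

theorem leafL_sound {g : ℕ → ℕ → ℕ → Bool} {m acc i : ℕ} (h : leafL g nb m acc i = true) :
    ∀ j < i, Nat.testBit m j = true → g (Nat.land m (nb j)) j (Nat.lor acc (2 ^ j)) = true := by
  induction i with
  | zero => intro j hj; omega
  | succ i ih =>
    have h' : leafL g nb m acc (i + 1) = Bool.rec (leafL g nb m acc i)
      (Bool.rec false (leafL g nb m acc i)
      (force (Nat.land m (nb i)) (fun x => force (Nat.lor acc (2 ^ i)) (fun y => g x i y))))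
      (tb m i) := rfl
    rw [h', tb_eq, force_eq, force_eq] at h
    intro j hj hm
    have h1 : leafL g nb m acc i = true := by
      cases hb : Nat.testBit m i with
      | false => rw [hb] at h; exact h
      | true =>
        rw [hb] at h
        cases hg : g (Nat.land m (nb i)) i (Nat.lor acc (2 ^ i)) with
        | false => rw [hg] at h; exact absurd h (by simp)
        | true => rw [hg] at h; exact h
    rcases Nat.lt_or_ge j i with hlt | hge
    · exact ih h1 j hlt hm
    · have : j = i := by omega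
      subst this
      rw [hm] at h
      cases hg : g (Nat.land m (nb j)) j (Nat.lor acc (2 ^ j)) with
      | false => rw [hg] at h; exact absurd h (by simp)
      | true => rfl

include hH in
theorem leaf_sound {g : ℕ → Bool} {k m i acc : ℕ} (hi : i ≤ n)
    (h : leaf g nb k m i acc = true) (c : Finset (Fin n))
    (hF : c ⊆ toS n m i) (hc : H.IsClique (c : Set (Fin n))) (hk : c.card = k) :
    ∃ M, g M = true ∧ ∀ x : Fin n, Nat.testBit M x = true ↔
      (Nat.testBit acc x = true ∨ x ∈ c) := by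
  induction k generalizing m i acc c with
  | zero =>
    rw [Finset.card_eq_zero] at hk
    subst hk
    exact ⟨acc, h, fun x => by simp⟩
  | succ k ih =>
    have hne : c.Nonempty := by
      rw [← Finset.card_pos]; omega
    obtain ⟨j, hjF, hjmax⟩ := Finset.exists_max_image c (fun x : Fin n => (x : ℕ)) hne
    have hj := (mem_toS).1 (hF hjF)
    have h' : leafL (leaf g nb k) nb m acc i = true := h
    have h3 := leafL_sound nb h' j hj.1 hj.2
    have hsub : c.erase j ⊆ toS n (Nat.land m (nb j)) j := by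
      intro x hx
      rw [Finset.mem_erase] at hx
      have hx' := (mem_toS).1 (hF hx.2)
      rw [toS_land H nb hH, mem_nbr, mem_toS]
      refine ⟨⟨?_, hx'.2⟩, hc (by exact_mod_cast hjF) (by exact_mod_cast hx.2) hx.1.symm⟩
      have := hjmax x hx.2
      have hne : (x : ℕ) ≠ j := fun h => hx.1 (Fin.ext h)
      omega
    obtain ⟨M, hM, hM2⟩ := ih (by omega) h3 (c.erase j) hsub
      (hc.subset (by exact_mod_cast Finset.erase_subset _ _))
      (by rw [Finset.card_erase_of_mem hjF, hk]; rfl)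
    refine ⟨M, hM, fun x => ?_⟩
    rw [hM2 x]
    have h4 : Nat.testBit (Nat.lor acc (2 ^ (j : ℕ))) x =
        (Nat.testBit acc x || decide ((j : ℕ) = x)) := by
      have h := Nat.testBit_or acc (2 ^ (j : ℕ)) x
      rw [Nat.testBit_two_pow] at h
      exact h
    rw [h4, Bool.or_eq_true, decide_eq_true_eq, Finset.mem_erase, or_assoc]
    constructor
    · rintro (h5 | h5 | h5)
      · exact Or.inl h5
      · exact Or.inr (by rw [← Fin.ext h5]; exact hjF)
      · exact Or.inr h5.2
    · rintro (h5 | h5)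
      · exact Or.inl h5
      · by_cases hxj : x = j
        · exact Or.inr (Or.inl (by rw [hxj]))
        · exact Or.inr (Or.inr ⟨hxj, h5⟩)

end

/-- facets as vertex sets -/
def FF (i : Fin 389) : Finset (Fin 24) := toS 24 (fmask (fent i)) 24

theorem mem_FF {i : Fin 389} {k : Fin 24} : k ∈ FF i ↔ Nat.testBit (fmask (fent i)) k = true := by
  rw [FF, mem_toS]
  exact ⟨fun h => h.2, fun h => ⟨k.2, h⟩⟩

theorem sx {m : ℕ} {j : ℕ} {x : ℕ} : Nat.testBit (Nat.xor m (2 ^ j)) x =
    (Nat.testBit m x ^^ decide (j = x)) := by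
  have h := Nat.testBit_xor m (2 ^ j) x
  rw [Nat.testBit_two_pow] at h
  exact h

theorem FF_spec (i : Fin 389) : (FF i).card = 6 ∧ H24.IsClique (FF i : Set (Fin 24)) ∧
    ∀ j ∈ FF i, ∃ j' : Fin 24, j' ∉ FF i ∧ ∀ x ∈ FF i, x ≠ j → H24.Adj x j' := by
  have h := (allB_iff ok2 389).1 all_ok2 i i.2
  rw [ok2, force_eq, Bool.and_eq_true] at h
  obtain ⟨h1, h2⟩ := h
  rw [allB_iff] at h2
  have key : ∀ j ∈ FF i, (Nat.land (Nat.xor (fmask (fent i)) (2 ^ (j : ℕ))) (nb24 j) =
      Nat.xor (fmask (fent i)) (2 ^ (j : ℕ))) ∧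
      ∃ j' : Fin 24, j' ∉ FF i ∧ Nat.land (Nat.xor (fmask (fent i)) (2 ^ (j : ℕ))) (nb24 j') =
      Nat.xor (fmask (fent i)) (2 ^ (j : ℕ)) := by
    intro j hj
    have h3 := h2 j j.2
    rw [mem_FF] at hj
    rw [tb_eq, hj] at h3
    simp only [Bool.and_eq_true] at h3
    obtain ⟨h4, h5⟩ := h3
    refine ⟨Nat.eq_of_beq_eq_true h4, ?_⟩
    rw [anyB_iff] at h5
    obtain ⟨j', hj', h6⟩ := h5
    cases hb : tb (fmask (fent i)) j' with
    | true => rw [hb] at h6; exact absurd h6 (by simp)
    | false =>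
      rw [hb] at h6
      refine ⟨⟨j', hj'⟩, ?_, Nat.eq_of_beq_eq_true h6⟩
      rw [mem_FF, ← tb_eq]
      simp [hb]
  have adj_of : ∀ (j : Fin 24) (j' : Fin 24), Nat.land (Nat.xor (fmask (fent i)) (2 ^ (j : ℕ)))
      (nb24 j') = Nat.xor (fmask (fent i)) (2 ^ (j : ℕ)) → ∀ x ∈ FF i, x ≠ j → H24.Adj x j' := by
    intro j j' he x hx hxj
    rw [mem_FF] at hx
    have h7 : Nat.testBit (Nat.xor (fmask (fent i)) (2 ^ (j : ℕ))) x = true := by
      rw [sx, hx]
      have : ¬ ((j : ℕ) = x) := fun h => hxj (Fin.ext h.symm)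
      simp [this]
    rw [← he, testBit_land, Bool.and_eq_true] at h7
    exact ((H24_adj j' x).2 h7.2).symm
  refine ⟨?_, ?_, ?_⟩
  · rw [FF, pc_sound le_rfl]
    exact Nat.eq_of_beq_eq_true h1
  · intro x hx y hy hxy
    have hx' : x ∈ FF i := by exact_mod_cast hx
    have hy' : y ∈ FF i := by exact_mod_cast hy
    exact adj_of y y (key y hy').1 x hx' hxy
  · intro j hj
    obtain ⟨-, j', h8, h9⟩ := key j hj
    exact ⟨j', h8, adj_of j j' h9⟩

theorem clique6 (c : Finset (Fin 24)) (hc : H24.IsClique (c : Set (Fin 24))) (h6 : c.card = 6) :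
    ∃ i, FF i = c := by
  obtain ⟨M, h1, h2⟩ := leaf_sound H24 nb24 H24_adj le_rfl leaf_ok c
    (by rw [toS_full]; exact Finset.subset_univ _) hc h6
  rw [inF, anyB_iff] at h1
  obtain ⟨i, hi, h3⟩ := h1
  replace h3 := Nat.eq_of_beq_eq_true h3
  refine ⟨⟨i, hi⟩, ?_⟩
  ext x
  rw [mem_FF]
  simp only
  rw [h3, h2 x]
  simp

theorem clique_sub (c : Finset (Fin 24)) (hc : H24.IsClique (c : Set (Fin 24))) :
    ∃ i, c ⊆ FF i := by
  have h0 := allc_sound H24 nb24 H24_adj le_rfl chk_sphere
  rw [toS_full] at h0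
  induction hk : 6 - c.card generalizing c with
  | zero =>
    have h1 := (h0 c (Finset.subset_univ _) hc).1
    obtain ⟨i, hi⟩ := clique6 c hc (by omega)
    exact ⟨i, by rw [hi]⟩
  | succ k ih =>
    have h1 := h0 c (Finset.subset_univ _) hc
    obtain ⟨v, hv, -⟩ := h1.2.1 (by omega)
    have hv' := (mem_nbrs H24).1 hv
    have hvF : v ∉ c := fun h => H24.irrefl (hv'.2 v h)
    obtain ⟨i, hi⟩ := ih (insert v c)
      ((clique_insert H24 hvF).2 ⟨hc, fun w hw => (hv'.2 w hw).symm⟩)
      (by rw [Finset.card_insert_of_notMem hvF]; omega)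
    exact ⟨i, (Finset.subset_insert _ _).trans hi⟩

theorem clique_iff (c : Finset (Fin 24)) :
    H24.IsClique (c : Set (Fin 24)) ↔ ∃ i, c ⊆ FF i := by
  constructor
  · exact clique_sub c
  · rintro ⟨i, hi⟩
    exact (FF_spec i).2.1.subset (by exact_mod_cast hi)

/-- vertices -/
noncomputable def pt (k : Fin 24) : EuclideanSpace ℝ (Fin 6) :=
  WithLp.toLp 2 (fun j : Fin 6 => ((vc k j : ℤ) : ℝ))

/-- facet functionals -/
noncomputable def fl (i : Fin 389) : EuclideanSpace ℝ (Fin 6) →ₗ[ℝ] ℝ where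
  toFun x := (∑ j : Fin 6, ((fnor (fent i) j : ℤ) : ℝ) * x j) / ((frhs (fent i) : ℤ) : ℝ)
  map_add' x y := by
    rw [← add_div, ← Finset.sum_add_distrib]
    congr 1
    apply Finset.sum_congr rfl
    intro j _
    rw [PiLp.add_apply]; ring
  map_smul' r x := by
    rw [RingHom.id_apply, smul_eq_mul, ← mul_div_assoc, Finset.mul_sum]
    congr 1
    apply Finset.sum_congr rfl
    intro j _
    rw [PiLp.smul_apply, smul_eq_mul]; ring

theorem rhs_pos (i : Fin 389) : 0 < frhs (fent i) := by
  have h := (allB_iff ok3 389).1 all_ok3 i i.2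
  rw [ok3, decide_eq_true_eq] at h
  exact h

theorem fl_pt (i : Fin 389) (k : Fin 24) :
    fl i (pt k) = ((dot6 (fent i) k : ℤ) : ℝ) / ((frhs (fent i) : ℤ) : ℝ) := by
  show (∑ j : Fin 6, ((fnor (fent i) j : ℤ) : ℝ) * (pt k) j) / ((frhs (fent i) : ℤ) : ℝ) = _
  congr 1
  rw [Fin.sum_univ_six]
  simp only [pt, dot6]
  push_cast
  rfl

theorem fl_on (i : Fin 389) (k : Fin 24) (hk : k ∈ FF i) : fl i (pt k) = 1 := by
  have h := (allB_iff ok1 389).1 all_ok1 i i.2
  rw [ok1, force_eq, allB_iff] at h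
  have h1 := h k k.2
  rw [mem_FF] at hk
  rw [tb_eq, hk] at h1
  have h2 : dot6 (fent i) k = frhs (fent i) := by simpa using h1
  have h3 : (0 : ℝ) < ((frhs (fent i) : ℤ) : ℝ) := by exact_mod_cast rhs_pos i
  rw [fl_pt, h2, div_self h3.ne']

theorem fl_off (i : Fin 389) (k : Fin 24) (hk : k ∉ FF i) : fl i (pt k) < 1 := by
  have h := (allB_iff ok1 389).1 all_ok1 i i.2
  rw [ok1, force_eq, allB_iff] at h
  have h1 := h k k.2
  rw [mem_FF, Bool.not_eq_true] at hk
  rw [tb_eq, hk] at h1
  have h2 : dot6 (fent i) k < frhs (fent i) := by simpa using h1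
  have h3 : (0 : ℝ) < ((frhs (fent i) : ℤ) : ℝ) := by exact_mod_cast rhs_pos i
  rw [fl_pt, div_lt_one h3]
  exact_mod_cast h2

end Pool.Agent.TH355.FS
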