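import Mathlib

set_option autoImplicit false
open Finset

namespace Pool.Agent.TH355.FS

/-- Combinatorial and geometric data of a simplicial polytope with `0` in its interior:
vertices `p`, normalized facet functionals `a`, vertex sets `F` of the facets. -/
structure PolyData (d : ℕ) (V I : Type) [Fintype V] [DecidableEq V] [Fintype I] where
  p : V → EuclideanSpace ℝ (Fin d)
  a : I → (EuclideanSpace ℝ (Fin d) →ₗ[ℝ] ℝ)
  F : I → Finset V
  on_facet : ∀ i, ∀ k ∈ F i, a i (p k) = 1
  off_facet : ∀ i, ∀ k, k ∉ F i → a i (p k) < 1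
  nbr : ∀ i, ∀ j ∈ F i, ∃ i', (∀ k ∈ F i, k ≠ j → k ∈ F i') ∧ j ∉ F i'
  card : ∀ i, (F i).card = d
  bounded : ∀ x ≠ 0, ∃ i, 0 < a i x

namespace PolyData

variable {d : ℕ} {V I : Type} [Fintype V] [DecidableEq V] [Fintype I] (P : PolyData d V I)

theorem le_one (i : I) (k : V) : P.a i (P.p k) ≤ 1 := by
  by_cases h : k ∈ P.F i
  · exact (P.on_facet i k h).le
  · exact (P.off_facet i k h).le

theorem coeff_eq_zero {i : I} {w : V → ℝ} (h : ∑ k ∈ P.F i, w k • P.p k = 0) :
    ∀ j ∈ P.F i, w j = 0 := by
  intro j hj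
  obtain ⟨i', h1, h2⟩ := P.nbr i j hj
  have h3 : (P.a i - P.a i') (∑ k ∈ P.F i, w k • P.p k) = 0 := by rw [h, map_zero]
  rw [map_sum] at h3
  have h4 : ∑ k ∈ P.F i, (P.a i - P.a i') (w k • P.p k) = w j * (1 - P.a i' (P.p j)) := by
    rw [Finset.sum_eq_single j]
    · rw [map_smul, LinearMap.sub_apply, P.on_facet i j hj, smul_eq_mul]
    · intro k hk hkj
      rw [map_smul, LinearMap.sub_apply, P.on_facet i k hk, P.on_facet i' k (h1 k hk hkj)]
      simp
    · intro h; exact absurd hj h
  rw [h4] at h3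
  have h5 := P.off_facet i' j h2
  rcases mul_eq_zero.1 h3 with h6 | h6
  · exact h6
  · linarith

theorem coeff_unique {i : I} {w w' : V → ℝ}
    (h : ∑ k ∈ P.F i, w k • P.p k = ∑ k ∈ P.F i, w' k • P.p k) :
    ∀ j ∈ P.F i, w j = w' j := by
  intro j hj
  have h1 : ∑ k ∈ P.F i, (w k - w' k) • P.p k = 0 := by
    simp only [sub_smul, Finset.sum_sub_distrib, h, sub_self]
  have := P.coeff_eq_zero h1 j hj
  linarith

theorem linInd (i : I) : LinearIndependent ℝ (fun k : P.F i => P.p k) := by
  rw [Fintype.linearIndependent_iff]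
  intro g hg k
  classical
  let w : V → ℝ := fun v => if h : v ∈ P.F i then g ⟨v, h⟩ else 0
  have h1 : ∑ k ∈ P.F i, w k • P.p k = 0 := by
    rw [← Finset.sum_coe_sort (P.F i) (fun k => w k • P.p k), ← hg]
    apply Finset.sum_congr rfl
    intro k _
    simp [w]
  have := P.coeff_eq_zero h1 k k.2
  simpa [w] using this

theorem p_injective_on {i : I} {j k : V} (hj : j ∈ P.F i) (hk : k ∈ P.F i)
    (h : P.p j = P.p k) : j = k := by
  have := (P.linInd i).injective (a₁ := ⟨j, hj⟩) (a₂ := ⟨k, hk⟩) h
  exact congrArg Subtype.val this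

theorem exists_coeff (i : I) (x : EuclideanSpace ℝ (Fin d)) :
    ∃ w : V → ℝ, ∑ k ∈ P.F i, w k • P.p k = x := by
  have h1 : Submodule.span ℝ (Set.range (fun k : P.F i => P.p k)) = ⊤ := by
    apply (P.linInd i).span_eq_top_of_card_eq_finrank'
    rw [Fintype.card_coe, P.card i]
    simp
  have h2 : x ∈ Submodule.span ℝ (Set.range (fun k : P.F i => P.p k)) := by rw [h1]; trivial
  rw [Submodule.mem_span_range_iff_exists_fun] at h2
  obtain ⟨c, hc⟩ := h2
  classical
  refine ⟨fun v => if h : v ∈ P.F i then c ⟨v, h⟩ else 0, ?_⟩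
  rw [← Finset.sum_coe_sort (P.F i) (fun k => (if h : k ∈ P.F i then c ⟨k, h⟩ else 0) • P.p k),
    ← hc]
  apply Finset.sum_congr rfl
  intro k _
  simp

/-- vertices are distinct as soon as each lies on a facet -/
theorem p_injective (hcov : ∀ k, ∃ i, k ∈ P.F i) : Function.Injective P.p := by
  intro j k h
  obtain ⟨i, hi⟩ := hcov j
  have hk : k ∈ P.F i := by
    by_contra hcon
    have h1 := P.off_facet i k hcon
    rw [← h, P.on_facet i j hi] at h1
    exact lt_irrefl _ h1
  exact P.p_injective_on hi hk h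

theorem mem_hull (hinj : Function.Injective P.p) (c : Finset V) (x : EuclideanSpace ℝ (Fin d)) :
    x ∈ convexHull ℝ ((c.image P.p : Finset _) : Set (EuclideanSpace ℝ (Fin d))) ↔
      ∃ w : V → ℝ, (∀ k ∈ c, 0 ≤ w k) ∧ ∑ k ∈ c, w k = 1 ∧ ∑ k ∈ c, w k • P.p k = x := by
  rw [Finset.mem_convexHull']
  constructor
  · rintro ⟨w, h1, h2, h3⟩
    refine ⟨fun k => w (P.p k), fun k hk => h1 _ (Finset.mem_image_of_mem _ hk), ?_, ?_⟩
    · rw [← h2, Finset.sum_image (fun a _ b _ h => hinj h)]
    · rw [← h3, Finset.sum_image (fun a _ b _ h => hinj h)]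
  · rintro ⟨w, h1, h2, h3⟩
    rcases isEmpty_or_nonempty V with hV | hV
    · exfalso
      have : c = ∅ := by
        ext v; exact hV.elim v
      rw [this] at h2
      simp at h2
    · have hinv : ∀ k, w (Function.invFun P.p (P.p k)) = w k := by
        intro k
        rw [Function.leftInverse_invFun hinj k]
      refine ⟨fun y => w (Function.invFun P.p y), ?_, ?_, ?_⟩
      · intro y hy
        rw [Finset.mem_image] at hy
        obtain ⟨k, hk, rfl⟩ := hy
        have := h1 k hk
        rw [← hinv k] at this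
        exact this
      · rw [Finset.sum_image (fun a _ b _ h => hinj h), ← h2]
        exact Finset.sum_congr rfl fun k _ => hinv k
      · rw [Finset.sum_image (fun a _ b _ h => hinj h), ← h3]
        exact Finset.sum_congr rfl fun k _ => congrArg (fun t : ℝ => t • P.p k) (hinv k)

/-- the faces of the boundary complex -/
def faces : Set (Finset (EuclideanSpace ℝ (Fin d))) :=
  {s | ∃ c : Finset V, c.Nonempty ∧ (∃ i, c ⊆ P.F i) ∧ s = c.image P.p}

/-- the boundary complex of a simplicial polytope -/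
noncomputable def complex (hcov : ∀ k, ∃ i, k ∈ P.F i) :
    Geometry.SimplicialComplex ℝ (EuclideanSpace ℝ (Fin d)) where
  faces := P.faces
  isRelLowerSet_faces := by
    intro s hs
    obtain ⟨c, hc, ⟨i, hci⟩, rfl⟩ := hs
    refine ⟨hc.image _, ?_⟩
    intro t hts ht
    refine ⟨c.filter (fun k => P.p k ∈ t), ?_, ⟨i, (Finset.filter_subset _ _).trans hci⟩, ?_⟩
    · obtain ⟨y, hy⟩ := ht
      have := hts hy
      rw [Finset.mem_image] at this
      obtain ⟨k, hk, rfl⟩ := this
      exact ⟨k, by rw [Finset.mem_filter]; exact ⟨hk, hy⟩⟩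
    · ext y
      rw [Finset.mem_image]
      constructor
      · intro hy
        have := hts hy
        rw [Finset.mem_image] at this
        obtain ⟨k, hk, rfl⟩ := this
        exact ⟨k, by rw [Finset.mem_filter]; exact ⟨hk, hy⟩, rfl⟩
      · rintro ⟨k, hk, rfl⟩
        rw [Finset.mem_filter] at hk
        exact hk.2
  indep := by
    intro s hs
    obtain ⟨c, hc, ⟨i, hci⟩, rfl⟩ := hs
    have h1 := (P.linInd i).affineIndependent
    have h2 : AffineIndependent ℝ (fun k : c => P.p k) := by
      exact h1.comp_embedding ⟨fun k : c => (⟨k, hci k.2⟩ : P.F i), by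
        intro a b h
        exact Subtype.ext (congrArg (fun z : P.F i => (z : V)) h)⟩
    have h3 : AffineIndependent ℝ (fun x : Set.range (fun k : c => P.p k) => (x : EuclideanSpace ℝ (Fin d))) :=
      h2.range
    have h4 : Set.range (fun k : c => P.p k) = ((c.image P.p : Finset _) : Set (EuclideanSpace ℝ (Fin d))) := by
      rw [Finset.coe_image]
      ext y
      constructor
      · rintro ⟨k, rfl⟩
        exact ⟨k, k.2, rfl⟩
      · rintro ⟨k, hk, rfl⟩
        exact ⟨⟨k, hk⟩, rfl⟩
    rw [h4] at h3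
    exact h3
  inter_subset_convexHull := by
    intro s t hs ht x hx
    obtain ⟨c, hc, ⟨i, hci⟩, rfl⟩ := hs
    obtain ⟨c', hc', ⟨i', hci'⟩, rfl⟩ := ht
    have hinj := P.p_injective hcov
    obtain ⟨hx1, hx2⟩ := hx
    rw [P.mem_hull hinj] at hx1 hx2
    obtain ⟨w, w0, w1, wx⟩ := hx1
    obtain ⟨v, v0, v1, vx⟩ := hx2
    rw [← Finset.coe_inter, ← Finset.image_inter _ _ hinj, P.mem_hull hinj]
    -- coefficients of `v` vanish off `F i`
    have hax : P.a i x = 1 := by
      rw [← wx, map_sum, ← w1]
      apply Finset.sum_congr rfl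
      intro k hk
      rw [map_smul, P.on_facet i k (hci hk), smul_eq_mul, mul_one]
    have hv0 : ∀ k ∈ c', k ∉ P.F i → v k = 0 := by
      have h1 : ∑ k ∈ c', v k * (1 - P.a i (P.p k)) = 0 := by
        have : ∑ k ∈ c', v k * (1 - P.a i (P.p k)) = ∑ k ∈ c', v k - P.a i x := by
          rw [← vx, map_sum, ← Finset.sum_sub_distrib]
          apply Finset.sum_congr rfl
          intro k _
          rw [map_smul, smul_eq_mul]; ring
        rw [this, hax, v1, sub_self]
      have h2 : ∀ k ∈ c', 0 ≤ v k * (1 - P.a i (P.p k)) := by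
        intro k hk
        exact mul_nonneg (v0 k hk) (by linarith [P.le_one i k])
      intro k hk hki
      have h3 := (Finset.sum_eq_zero_iff_of_nonneg h2).1 h1 k hk
      have h4 := P.off_facet i k hki
      rcases mul_eq_zero.1 h3 with h5 | h5
      · exact h5
      · linarith
    let w' : V → ℝ := fun k => if k ∈ c then w k else 0
    let v' : V → ℝ := fun k => if k ∈ c' then v k else 0
    have e1 : ∑ k ∈ P.F i, w' k • P.p k = x := by
      rw [← wx, ← Finset.sum_subset hci]
      · apply Finset.sum_congr rfl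
        intro k hk
        simp [w', hk]
      · intro k _ hk
        simp [w', hk]
    have e2 : ∑ k ∈ P.F i, v' k • P.p k = x := by
      rw [← vx]
      have h1 : ∑ k ∈ P.F i, v' k • P.p k = ∑ k ∈ P.F i ∩ c', v k • P.p k := by
        rw [← Finset.sum_subset (Finset.inter_subset_left (s₁ := P.F i) (s₂ := c'))]
        · apply Finset.sum_congr rfl
          intro k hk
          rw [Finset.mem_inter] at hk
          simp [v', hk.2]
        · intro k hk hk'
          have : k ∉ c' := fun h => hk' (by rw [Finset.mem_inter]; exact ⟨hk, h⟩)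
          simp [v', this]
      rw [h1]
      apply Finset.sum_subset Finset.inter_subset_right
      intro k hk hk'
      have : k ∉ P.F i := fun h => hk' (by rw [Finset.mem_inter]; exact ⟨h, hk⟩)
      rw [hv0 k hk this, zero_smul]
    have e3 := P.coeff_unique (e1.trans e2.symm)
    have hz : ∀ k ∈ c, k ∉ c' → w k = 0 := by
      intro k hk hk'
      have := e3 k (hci hk)
      simpa [w', v', hk, hk'] using this
    refine ⟨w, fun k hk => w0 k (Finset.mem_inter.1 hk).1, ?_, ?_⟩
    · rw [← w1]
      apply Finset.sum_subset Finset.inter_subset_left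
      intro k hk hk'
      exact hz k hk (fun h => hk' (by rw [Finset.mem_inter]; exact ⟨hk, h⟩))
    · rw [← wx]
      apply Finset.sum_subset Finset.inter_subset_left
      intro k hk hk'
      rw [hz k hk (fun h => hk' (by rw [Finset.mem_inter]; exact ⟨hk, h⟩)), zero_smul]

/-- the gauge -/
noncomputable def gauge [Nonempty I] (x : EuclideanSpace ℝ (Fin d)) : ℝ :=
  Finset.univ.sup' Finset.univ_nonempty (fun i => P.a i x)

theorem gauge_cont [Nonempty I] : Continuous P.gauge := by
  apply Continuous.finset_sup'_apply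
  intro i _
  exact LinearMap.continuous_of_finiteDimensional (P.a i)

theorem le_gauge [Nonempty I] (i : I) (x : EuclideanSpace ℝ (Fin d)) : P.a i x ≤ P.gauge x :=
  Finset.le_sup' (fun i => P.a i x) (Finset.mem_univ i)

theorem exists_gauge [Nonempty I] (x : EuclideanSpace ℝ (Fin d)) : ∃ i, P.gauge x = P.a i x := by
  obtain ⟨i, -, hi⟩ := Finset.exists_mem_eq_sup' Finset.univ_nonempty (fun i => P.a i x)
  exact ⟨i, hi⟩

theorem gauge_pos [Nonempty I] {x : EuclideanSpace ℝ (Fin d)} (hx : x ≠ 0) : 0 < P.gauge x := by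
  obtain ⟨i, hi⟩ := P.bounded x hx
  exact hi.trans_le (P.le_gauge i x)

theorem gauge_smul [Nonempty I] {r : ℝ} (hr : 0 ≤ r) (x : EuclideanSpace ℝ (Fin d)) :
    P.gauge (r • x) = r * P.gauge x := by
  apply le_antisymm
  · obtain ⟨i, hi⟩ := P.exists_gauge (r • x)
    rw [hi, map_smul, smul_eq_mul]
    exact mul_le_mul_of_nonneg_left (P.le_gauge i x) hr
  · obtain ⟨i, hi⟩ := P.exists_gauge x
    rw [hi]
    have := P.le_gauge i (r • x)
    rwa [map_smul, smul_eq_mul] at this

theorem mem_space_iff [Nonempty I] (hcov : ∀ k, ∃ i, k ∈ P.F i) (hd : 0 < d)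
    (x : EuclideanSpace ℝ (Fin d)) :
    x ∈ (P.complex hcov).space ↔ P.gauge x = 1 := by
  have hinj := P.p_injective hcov
  rw [Geometry.SimplicialComplex.mem_space_iff]
  constructor
  · rintro ⟨s, ⟨c, hc, ⟨i, hci⟩, rfl⟩, hx⟩
    rw [P.mem_hull hinj] at hx
    obtain ⟨w, w0, w1, wx⟩ := hx
    apply le_antisymm
    · obtain ⟨i', hi'⟩ := P.exists_gauge x
      rw [hi', ← wx, map_sum, ← w1]
      apply Finset.sum_le_sum
      intro k hk
      rw [map_smul, smul_eq_mul]
      have := mul_le_mul_of_nonneg_left (P.le_one i' k) (w0 k hk)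
      linarith
    · have : P.a i x = 1 := by
        rw [← wx, map_sum, ← w1]
        apply Finset.sum_congr rfl
        intro k hk
        rw [map_smul, P.on_facet i k (hci hk), smul_eq_mul, mul_one]
      rw [← this]
      exact P.le_gauge i x
  · intro hx
    obtain ⟨i, hi⟩ := P.exists_gauge x
    rw [hx] at hi
    refine ⟨(P.F i).image P.p, ⟨P.F i, ?_, ⟨i, subset_rfl⟩, rfl⟩, ?_⟩
    · rw [← Finset.card_pos, P.card i]; exact hd
    · rw [P.mem_hull hinj]
      obtain ⟨w, hw⟩ := P.exists_coeff i x
      refine ⟨w, ?_, ?_, hw⟩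
      · intro j hj
        obtain ⟨i', h1, h2⟩ := P.nbr i j hj
        have h3 : (P.a i - P.a i') x = w j * (1 - P.a i' (P.p j)) := by
          rw [← hw, map_sum, Finset.sum_eq_single j]
          · rw [map_smul, LinearMap.sub_apply, P.on_facet i j hj, smul_eq_mul]
          · intro k hk hkj
            rw [map_smul, LinearMap.sub_apply, P.on_facet i k hk, P.on_facet i' k (h1 k hk hkj)]
            simp
          · intro h; exact absurd hj h
        rw [LinearMap.sub_apply, ← hi] at h3
        have h4 := P.le_gauge i' x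
        rw [hx] at h4
        have h5 := P.off_facet i' j h2
        by_contra hneg
        push Not at hneg
        have : w j * (1 - P.a i' (P.p j)) < 0 := mul_neg_of_neg_of_pos hneg (by linarith)
        linarith
      · rw [hi, ← hw, map_sum]
        apply Finset.sum_congr rfl
        intro k hk
        rw [map_smul, P.on_facet i k hk, smul_eq_mul, mul_one]

/-- The boundary complex is homeomorphic to the sphere. -/
theorem homeo [Nonempty I] (hcov : ∀ k, ∃ i, k ∈ P.F i) (hd : 0 < d) :
    Nonempty ((P.complex hcov).space ≃ₜ Metric.sphere (0 : EuclideanSpace ℝ (Fin d)) 1) := by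
  have hne : ∀ x : (P.complex hcov).space, (x : EuclideanSpace ℝ (Fin d)) ≠ 0 := by
    intro x h0
    have h1 := (P.mem_space_iff hcov hd x).1 x.2
    have h2 := P.gauge_smul (le_refl 0) (x : EuclideanSpace ℝ (Fin d))
    rw [zero_smul, zero_mul] at h2
    rw [h0, h2] at h1
    exact zero_ne_one h1
  have hne' : ∀ y : Metric.sphere (0 : EuclideanSpace ℝ (Fin d)) 1,
      (y : EuclideanSpace ℝ (Fin d)) ≠ 0 := by
    intro y h0
    have := y.2
    rw [h0] at this
    simp at this
  refine ⟨{ toFun := fun x => ⟨(‖(x : EuclideanSpace ℝ (Fin d))‖)⁻¹ • (x : EuclideanSpace ℝ (Fin d)), ?_⟩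
            invFun := fun y => ⟨(P.gauge y)⁻¹ • (y : EuclideanSpace ℝ (Fin d)), ?_⟩
            left_inv := ?_
            right_inv := ?_
            continuous_toFun := ?_
            continuous_invFun := ?_ }⟩
  · rw [mem_sphere_zero_iff_norm, norm_smul, norm_inv, norm_norm]
    exact inv_mul_cancel₀ (norm_ne_zero_iff.2 (hne x))
  · rw [P.mem_space_iff hcov hd, P.gauge_smul (inv_nonneg.2 (P.gauge_pos (hne' y)).le)]
    exact inv_mul_cancel₀ (P.gauge_pos (hne' y)).ne'
  · intro x
    apply Subtype.ext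
    simp only
    have h1 := (P.mem_space_iff hcov hd x).1 x.2
    have h2 : 0 < ‖(x : EuclideanSpace ℝ (Fin d))‖ := norm_pos_iff.2 (hne x)
    rw [P.gauge_smul (inv_nonneg.2 h2.le), h1, mul_one, inv_inv, smul_smul,
      mul_inv_cancel₀ h2.ne', one_smul]
  · intro y
    apply Subtype.ext
    simp only
    have h1 : ‖(y : EuclideanSpace ℝ (Fin d))‖ = 1 := by
      have := y.2
      rwa [mem_sphere_zero_iff_norm] at this
    have h2 := P.gauge_pos (hne' y)
    rw [norm_smul, h1, mul_one, norm_inv, Real.norm_of_nonneg h2.le, inv_inv, smul_smul,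
      mul_inv_cancel₀ h2.ne', one_smul]
  · apply Continuous.subtype_mk
    exact ((continuous_norm.comp continuous_subtype_val).inv₀
        (fun x => norm_ne_zero_iff.2 (hne x))).smul continuous_subtype_val
  · apply Continuous.subtype_mk
    exact ((P.gauge_cont.comp continuous_subtype_val).inv₀
        (fun y => (P.gauge_pos (hne' y)).ne')).smul continuous_subtype_val

end PolyData

end Pool.Agent.TH355.FS
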